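import Mathlib
import Pool.Agent.U500.Cone.Prof
import Pool.Agent.U500.Cone.Gen

set_option autoImplicit false

/-!
# Products of functions of one variable: derivatives, Levi form
-/

open Metric Set Filter Topology
open scoped ContDiff InnerProductSpace

namespace Pool.Agent.U500.Pt

open Pool.Agent.U500.Inst Pool.Agent.U500.Cone

variable {n : ℕ}

/-- bounds of a function, of its derivative and of the Lipschitz constant of the derivative -/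
structure Bd (V : ℂ → ℝ) (a0 a1 a2 : ℝ) : Prop where
  smooth : ContDiff ℝ ∞ V
  val : ∀ z, |V z| ≤ a0
  der : ∀ z, ‖fderiv ℝ V z‖ ≤ a1
  lip : ∀ z w, ‖fderiv ℝ V z - fderiv ℝ V w‖ ≤ a2 * ‖z - w‖

variable {V A B : ℂ → ℝ} {a0 a1 a2 b0 b1 b2 : ℝ}

lemma Bd.diff (h : Bd V a0 a1 a2) : Differentiable ℝ V := h.smooth.differentiable (by simp)

lemma Bd.nn0 (h : Bd V a0 a1 a2) : 0 ≤ a0 := (abs_nonneg _).trans (h.val 0)

lemma Bd.nn1 (h : Bd V a0 a1 a2) : 0 ≤ a1 := (norm_nonneg _).trans (h.der 0)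

lemma Bd.nn2 (h : Bd V a0 a1 a2) : 0 ≤ a2 := by
  have h1 := (norm_nonneg _).trans (h.lip 1 0)
  simpa using h1

lemma Bd.lipV (h : Bd V a0 a1 a2) (z w : ℂ) : |V z - V w| ≤ a1 * ‖z - w‖ :=
  Convex.norm_image_sub_le_of_norm_fderiv_le (fun x _ => h.diff x) (fun x _ => h.der x)
    convex_univ (mem_univ w) (mem_univ z)

lemma Bd.L2_le (h : Bd V a0 a1 a2) (z a : ℂ) : |L2 V z a| ≤ a2 * ‖a‖ ^ 2 := by
  have h1 := line_V1 h.smooth z a
  have h2 := HasDerivAt.le_of_lip' h1 (C := a2 * ‖a‖ ^ 2) (by have := h.nn2; positivity)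
    (Eventually.of_forall fun σ => by
      rw [zero_smul, add_zero, sub_zero, ← _root_.sub_apply]
      calc ‖(fderiv ℝ V (z + σ • a) - fderiv ℝ V z) a‖
          ≤ ‖fderiv ℝ V (z + σ • a) - fderiv ℝ V z‖ * ‖a‖ := ContinuousLinearMap.le_opNorm _ _
        _ ≤ (a2 * ‖z + σ • a - z‖) * ‖a‖ := by
            gcongr
            exact h.lip _ _
        _ = a2 * ‖a‖ ^ 2 * ‖σ‖ := by
            rw [add_sub_cancel_left, norm_smul]
            ring)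
  exact h2

/-- a smooth function with compact support has such bounds -/
lemma exists_Bd (hV : ContDiff ℝ ∞ V) (hc : HasCompactSupport V) : ∃ a0 a1 a2, Bd V a0 a1 a2 := by
  obtain ⟨a0, h0⟩ := hV.continuous.bounded_above_of_compact_support hc
  obtain ⟨a1, h1⟩ := (hV.continuous_fderiv (by simp)).bounded_above_of_compact_support
    (hc.fderiv ℝ)
  have h2 : ContDiff ℝ 1 (fderiv ℝ V) := hV.fderiv_right (by
    exact WithTop.coe_le_coe.2 (le_top : (1 + 1 : ℕ∞) ≤ ⊤))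
  obtain ⟨C, hC⟩ := h2.lipschitzWith_of_hasCompactSupport (hc.fderiv ℝ) (by simp)
  exact ⟨a0, a1, C, hV, h0, h1, fun z w => by
    have := hC.dist_le_mul z w
    rwa [dist_eq_norm, dist_eq_norm] at this⟩

/-! ### products -/

/-- product of a function of `x 0` and a function of `x 1` -/
noncomputable def prd (A B : ℂ → ℝ) (x : Fin (n + 2) → ℂ) : ℝ := A (x 0) * B (x 1)

lemma contDiff_prd {N : WithTop ℕ∞} (hA : ContDiff ℝ N A) (hB : ContDiff ℝ N B) :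
    ContDiff ℝ N (prd (n := n) A B) :=
  (hA.comp (contDiff_apply ℝ ℂ (0 : Fin (n + 2)))).mul (hB.comp (contDiff_apply ℝ ℂ 1))

lemma fderiv_prd (hA : Differentiable ℝ A) (hB : Differentiable ℝ B) (x v : Fin (n + 2) → ℂ) :
    fderiv ℝ (prd A B) x v =
      A (x 0) * fderiv ℝ B (x 1) (v 1) + B (x 1) * fderiv ℝ A (x 0) (v 0) := by
  have h0 : HasFDerivAt (fun x : Fin (n + 2) → ℂ => x 0)
      (ContinuousLinearMap.proj (R := ℝ) (φ := fun _ : Fin (n + 2) => ℂ) 0) x :=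
    hasFDerivAt_apply 0 x
  have h1 : HasFDerivAt (fun x : Fin (n + 2) → ℂ => x 1)
      (ContinuousLinearMap.proj (R := ℝ) (φ := fun _ : Fin (n + 2) => ℂ) 1) x :=
    hasFDerivAt_apply 1 x
  have h2 := ((hA (x 0)).hasFDerivAt.comp x h0).mul ((hB (x 1)).hasFDerivAt.comp x h1)
  have h3 : fderiv ℝ (prd A B) x = _ := h2.fderiv
  rw [h3]
  rfl

lemma prd_val (hA : Bd A a0 a1 a2) (hB : Bd B b0 b1 b2) (x : Fin (n + 2) → ℂ) :
    |prd A B x| ≤ a0 * b0 := by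
  unfold prd
  rw [abs_mul]
  have := hA.nn0
  exact mul_le_mul (hA.val _) (hB.val _) (abs_nonneg _) hA.nn0

lemma prd_der (hA : Bd A a0 a1 a2) (hB : Bd B b0 b1 b2) (x : Fin (n + 2) → ℂ) :
    ‖fderiv ℝ (prd A B) x‖ ≤ a0 * b1 + b0 * a1 := by
  have e0 := hA.nn0
  have e1 := hA.nn1
  have e2 := hB.nn0
  have e3 := hB.nn1
  refine ContinuousLinearMap.opNorm_le_bound _ (by positivity) fun v => ?_
  rw [fderiv_prd hA.diff hB.diff, Real.norm_eq_abs]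
  have h0 : |fderiv ℝ A (x 0) (v 0)| ≤ a1 * ‖v‖ := by
    refine ((fderiv ℝ A (x 0)).le_opNorm (v 0)).trans ?_
    gcongr
    · exact hA.der _
    · exact norm_le_pi_norm v 0
  have h1 : |fderiv ℝ B (x 1) (v 1)| ≤ b1 * ‖v‖ := by
    refine ((fderiv ℝ B (x 1)).le_opNorm (v 1)).trans ?_
    gcongr
    · exact hB.der _
    · exact norm_le_pi_norm v 1
  calc _ ≤ |A (x 0) * fderiv ℝ B (x 1) (v 1)| + |B (x 1) * fderiv ℝ A (x 0) (v 0)| :=
        abs_add_le _ _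
    _ ≤ a0 * (b1 * ‖v‖) + b0 * (a1 * ‖v‖) := by
        rw [abs_mul, abs_mul]
        gcongr
        · exact hA.val _
        · exact hB.val _
    _ = _ := by ring

lemma prd_lip (hA : Bd A a0 a1 a2) (hB : Bd B b0 b1 b2) (x y : Fin (n + 2) → ℂ) :
    ‖fderiv ℝ (prd A B) x - fderiv ℝ (prd A B) y‖ ≤
      (a0 * b2 + 2 * a1 * b1 + b0 * a2) * ‖x - y‖ := by
  have e0 := hA.nn0
  have e1 := hA.nn1
  have e2 := hB.nn0
  have e3 := hB.nn1
  have e4 := hA.nn2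
  have e5 := hB.nn2
  refine ContinuousLinearMap.opNorm_le_bound _ (by positivity) fun v => ?_
  rw [_root_.sub_apply, fderiv_prd hA.diff hB.diff, fderiv_prd hA.diff hB.diff,
    Real.norm_eq_abs]
  have hv0 : ‖v 0‖ ≤ ‖v‖ := norm_le_pi_norm v 0
  have hv1 : ‖v 1‖ ≤ ‖v‖ := norm_le_pi_norm v 1
  have hd0 : ‖x 0 - y 0‖ ≤ ‖x - y‖ := norm_le_pi_norm (x - y) 0
  have hd1 : ‖x 1 - y 1‖ ≤ ‖x - y‖ := norm_le_pi_norm (x - y) 1
  have k1 : |(A (x 0) - A (y 0)) * fderiv ℝ B (x 1) (v 1)| ≤ (a1 * ‖x - y‖) * (b1 * ‖v‖) := by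
    rw [abs_mul]
    gcongr
    · refine (hA.lipV _ _).trans ?_
      gcongr
    · refine ((fderiv ℝ B (x 1)).le_opNorm (v 1)).trans ?_
      gcongr
      exact hB.der _
  have k2 : |A (y 0) * ((fderiv ℝ B (x 1) - fderiv ℝ B (y 1)) (v 1))| ≤
      a0 * ((b2 * ‖x - y‖) * ‖v‖) := by
    rw [abs_mul]
    gcongr
    · exact hA.val _
    · refine ((fderiv ℝ B (x 1) - fderiv ℝ B (y 1)).le_opNorm (v 1)).trans ?_
      gcongr
      refine (hB.lip _ _).trans ?_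
      gcongr
  have k3 : |(B (x 1) - B (y 1)) * fderiv ℝ A (x 0) (v 0)| ≤ (b1 * ‖x - y‖) * (a1 * ‖v‖) := by
    rw [abs_mul]
    gcongr
    · refine (hB.lipV _ _).trans ?_
      gcongr
    · refine ((fderiv ℝ A (x 0)).le_opNorm (v 0)).trans ?_
      gcongr
      exact hA.der _
  have k4 : |B (y 1) * ((fderiv ℝ A (x 0) - fderiv ℝ A (y 0)) (v 0))| ≤
      b0 * ((a2 * ‖x - y‖) * ‖v‖) := by
    rw [abs_mul]
    gcongr
    · exact hB.val _
    · refine ((fderiv ℝ A (x 0) - fderiv ℝ A (y 0)).le_opNorm (v 0)).trans ?_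
      gcongr
      refine (hA.lip _ _).trans ?_
      gcongr
  have hsplit : A (x 0) * fderiv ℝ B (x 1) (v 1) + B (x 1) * fderiv ℝ A (x 0) (v 0) -
      (A (y 0) * fderiv ℝ B (y 1) (v 1) + B (y 1) * fderiv ℝ A (y 0) (v 0)) =
      (A (x 0) - A (y 0)) * fderiv ℝ B (x 1) (v 1) +
        A (y 0) * ((fderiv ℝ B (x 1) - fderiv ℝ B (y 1)) (v 1)) +
        (B (x 1) - B (y 1)) * fderiv ℝ A (x 0) (v 0) +
        B (y 1) * ((fderiv ℝ A (x 0) - fderiv ℝ A (y 0)) (v 0)) := by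
    rw [_root_.sub_apply, _root_.sub_apply]
    ring
  rw [hsplit]
  refine ((abs_add_le _ _).trans (add_le_add ((abs_add_le _ _).trans
    (add_le_add (abs_add_le _ _) le_rfl)) le_rfl)).trans ?_
  calc _ ≤ (a1 * ‖x - y‖) * (b1 * ‖v‖) + a0 * ((b2 * ‖x - y‖) * ‖v‖) +
        (b1 * ‖x - y‖) * (a1 * ‖v‖) + b0 * ((a2 * ‖x - y‖) * ‖v‖) := by
        gcongr
    _ = _ := by ring

/-- second derivative along a line -/
lemma second_prd (hA : ContDiff ℝ ∞ A) (hB : ContDiff ℝ ∞ B) (x v : Fin (n + 2) → ℂ) :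
    iteratedDeriv 2 (fun σ : ℝ => prd A B (x + σ • v)) 0 =
      L2 A (x 0) (v 0) * B (x 1) + 2 * (fderiv ℝ A (x 0) (v 0) * fderiv ℝ B (x 1) (v 1)) +
        A (x 0) * L2 B (x 1) (v 1) := by
  have dA : Differentiable ℝ A := hA.differentiable (by simp)
  have dB : Differentiable ℝ B := hB.differentiable (by simp)
  have h1 : ∀ σ : ℝ, HasDerivAt (fun σ : ℝ => prd A B (x + σ • v))
      (fderiv ℝ A (x 0 + σ • v 0) (v 0) * B (x 1 + σ • v 1) +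
        A (x 0 + σ • v 0) * fderiv ℝ B (x 1 + σ • v 1) (v 1)) σ := fun σ =>
    (line_V dA (x 0) (v 0) σ).mul (line_V dB (x 1) (v 1) σ)
  have h2 := ((line_V1 hA (x 0) (v 0)).mul (line_V dB (x 1) (v 1) 0)).add
    ((line_V dA (x 0) (v 0) 0).mul (line_V1 hB (x 1) (v 1)))
  rw [iter2 h1 h2]
  simp only [zero_smul, add_zero]
  ring

/-- lower bound of the Levi form of a product -/
lemma levi_prd (hA : Bd A a0 a1 a2) (hB : Bd B b0 b1 b2) (hB0 : ∀ z, 0 ≤ B z)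
    (hB1 : ∀ z, B z ≤ 1) {c : ℝ} (hc : 0 ≤ c)
    (hL : ∀ z a, -(c * ‖a‖ ^ 2) ≤ L2 A z a + L2 A z (Complex.I * a)) (x v : Fin (n + 2) → ℂ) :
    -((c / 4 + a1 * b1 / 2 + a0 * b2 / 2) * nsq v) ≤ leviForm (prd A B) x v := by
  have e0 := hA.nn0
  have e1 := hA.nn1
  have e3 := hB.nn1
  have e5 := hB.nn2
  unfold leviForm
  rw [second_prd hA.smooth hB.smooth, second_prd hA.smooth hB.smooth]
  have i0 : (Complex.I • v) 0 = Complex.I * v 0 := rfl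
  have i1 : (Complex.I • v) 1 = Complex.I * v 1 := rfl
  rw [i0, i1]
  have n1 : ‖Complex.I * v 1‖ = ‖v 1‖ := by rw [norm_mul, Complex.norm_I, one_mul]
  have n0 : ‖Complex.I * v 0‖ = ‖v 0‖ := by rw [norm_mul, Complex.norm_I, one_mul]
  have hcross : ∀ a b : ℂ, -((a1 * ‖a‖) * (b1 * ‖b‖)) ≤
      fderiv ℝ A (x 0) a * fderiv ℝ B (x 1) b := by
    intro a b
    refine neg_le_of_abs_le ?_
    rw [abs_mul]
    gcongr
    · refine ((fderiv ℝ A (x 0)).le_opNorm a).trans ?_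
      gcongr
      exact hA.der _
    · refine ((fderiv ℝ B (x 1)).le_opNorm b).trans ?_
      gcongr
      exact hB.der _
  have hlast : ∀ b : ℂ, -(a0 * (b2 * ‖b‖ ^ 2)) ≤ A (x 0) * L2 B (x 1) b := by
    intro b
    refine neg_le_of_abs_le ?_
    rw [abs_mul]
    gcongr
    · exact hA.val _
    · exact hB.L2_le _ _
  have hfirst : -(c * ‖v 0‖ ^ 2) ≤ (L2 A (x 0) (v 0) + L2 A (x 0) (Complex.I * v 0)) * B (x 1) := by
    have h1 := hL (x 0) (v 0)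
    have h2 := hB0 (x 1)
    have h3 := hB1 (x 1)
    have h4 : 0 ≤ c * ‖v 0‖ ^ 2 := by positivity
    nlinarith
  have c1 := hcross (v 0) (v 1)
  have c2 := hcross (Complex.I * v 0) (Complex.I * v 1)
  have c3 := hlast (v 1)
  have c4 := hlast (Complex.I * v 1)
  rw [n0, n1] at c2
  rw [n1] at c4
  have hn : ‖v 0‖ ^ 2 + ‖v 1‖ ^ 2 ≤ nsq v := by
    rw [nsq_eq]
    have : ‖v 1‖ ^ 2 ≤ NN v :=
      Finset.single_le_sum (f := fun i : Fin (n + 1) => ‖v i.succ‖ ^ 2)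
        (fun _ _ => by positivity) (Finset.mem_univ 0)
    linarith
  have k1 : a1 * b1 * (‖v 0‖ * ‖v 1‖) ≤ a1 * b1 / 2 * nsq v := by
    have h1 : ‖v 0‖ * ‖v 1‖ ≤ nsq v / 2 := by nlinarith [sq_nonneg (‖v 0‖ - ‖v 1‖)]
    have h2 : 0 ≤ a1 * b1 := by positivity
    nlinarith
  have k2 : a0 * b2 * ‖v 1‖ ^ 2 ≤ a0 * b2 * nsq v := by
    have h1 : ‖v 1‖ ^ 2 ≤ nsq v := by nlinarith [sq_nonneg ‖v 0‖]
    gcongr
  have k3 : c * ‖v 0‖ ^ 2 ≤ c * nsq v := by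
    have h1 : ‖v 0‖ ^ 2 ≤ nsq v := by nlinarith [sq_nonneg ‖v 1‖]
    gcongr
  nlinarith

/-! ### scaling -/

noncomputable def scl (V : ℂ → ℝ) (c : ℂ) (r κ : ℝ) (z : ℂ) : ℝ := κ * V ((z - c) / (r : ℂ))

lemma contDiff_scl (hV : ContDiff ℝ ∞ V) (c : ℂ) (r κ : ℝ) : ContDiff ℝ ∞ (scl V c r κ) := by
  unfold scl
  apply contDiff_const.mul
  apply hV.comp
  exact (contDiff_id.sub contDiff_const).div_const _

lemma fderiv_scl (hV : Differentiable ℝ V) (c : ℂ) (r κ : ℝ) (z : ℂ) :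
    fderiv ℝ (scl V c r κ) z = (κ * r⁻¹) • fderiv ℝ V ((z - c) / (r : ℂ)) := by
  have hg : HasFDerivAt (fun z : ℂ => (z - c) / (r : ℂ)) (r⁻¹ • ContinuousLinearMap.id ℝ ℂ) z := by
    have h4 : (fun z : ℂ => (z - c) / (r : ℂ)) = fun z : ℂ => r⁻¹ • (z - c) := by
      funext z
      rw [Complex.real_smul, Complex.ofReal_inv, div_eq_inv_mul]
    rw [h4]
    exact ((hasFDerivAt_id z).sub_const c).const_smul r⁻¹
  have h5 := (((hV ((z - c) / (r : ℂ))).hasFDerivAt.comp z hg).const_mul κ).fderiv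
  have h6 : fderiv ℝ (scl V c r κ) z = _ := h5
  rw [h6]
  ext v
  simp
  ring

lemma Bd.scl (h : Bd V a0 a1 a2) (c : ℂ) {r κ : ℝ} (hr : 0 < r) (hκ : 0 ≤ κ) :
    Bd (scl V c r κ) (κ * a0) (κ * r⁻¹ * a1) (κ * r⁻¹ * r⁻¹ * a2) := by
  refine ⟨contDiff_scl h.smooth c r κ, ?_, ?_, ?_⟩
  · intro z
    unfold Pool.Agent.U500.Pt.scl
    rw [abs_mul, abs_of_nonneg hκ]
    gcongr
    exact h.val _
  · intro z
    rw [fderiv_scl h.diff, norm_smul, Real.norm_of_nonneg (by positivity)]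
    gcongr
    exact h.der _
  · intro z w
    rw [fderiv_scl h.diff, fderiv_scl h.diff, ← smul_sub, norm_smul,
      Real.norm_of_nonneg (by positivity)]
    have h1 : ‖(z - c) / (r : ℂ) - (w - c) / (r : ℂ)‖ = r⁻¹ * ‖z - w‖ := by
      rw [← sub_div, sub_sub_sub_cancel_right, norm_div, Complex.norm_real,
        Real.norm_of_nonneg hr.le]
      field_simp
    calc _ ≤ κ * r⁻¹ * (a2 * ‖(z - c) / (r : ℂ) - (w - c) / (r : ℂ)‖) := by
          gcongr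
          exact h.lip _ _
      _ = _ := by rw [h1]; ring

lemma L2_scl (V : ℂ → ℝ) (c : ℂ) (r κ : ℝ) (z a : ℂ) :
    L2 (scl V c r κ) z a = κ * L2 V ((z - c) / (r : ℂ)) (a / (r : ℂ)) := by
  unfold L2 scl
  have h1 : (fun σ : ℝ => κ * V ((z + σ • a - c) / (r : ℂ))) =
      fun σ : ℝ => κ * (fun σ : ℝ => V ((z - c) / (r : ℂ) + σ • (a / (r : ℂ)))) σ := by
    funext σ
    congr 2
    rw [Complex.real_smul, Complex.real_smul]
    ring
  rw [h1, iteratedDeriv_const_mul_field]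

/-- the scaled profile -/
lemma L2_scl_PP {m : ℕ} (hm : 0 < m) (c : ℂ) {r κ : ℝ} (hr : 0 < r) (hκ : 0 ≤ κ) (z a : ℂ) :
    -(κ * r⁻¹ * r⁻¹ * ‖a‖ ^ 2) ≤
      L2 (scl (PP m) c r κ) z a + L2 (scl (PP m) c r κ) z (Complex.I * a) := by
  rw [L2_scl, L2_scl]
  have h1 := second_PP_add hm ((z - c) / (r : ℂ)) (a / (r : ℂ))
  rw [← mul_div_assoc] at h1
  have h2 : ‖a / (r : ℂ)‖ ^ 2 = r⁻¹ * r⁻¹ * ‖a‖ ^ 2 := by
    rw [norm_div, Complex.norm_real, Real.norm_of_nonneg hr.le, div_pow]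
    field_simp
  rw [h2] at h1
  have h3 : -(r⁻¹ * r⁻¹ * ‖a‖ ^ 2) ≤ L2 (PP m) ((z - c) / (r : ℂ)) (a / (r : ℂ)) +
      L2 (PP m) ((z - c) / (r : ℂ)) (Complex.I * a / (r : ℂ)) := h1
  calc -(κ * r⁻¹ * r⁻¹ * ‖a‖ ^ 2) = κ * -(r⁻¹ * r⁻¹ * ‖a‖ ^ 2) := by ring
    _ ≤ κ * (L2 (PP m) ((z - c) / (r : ℂ)) (a / (r : ℂ)) +
      L2 (PP m) ((z - c) / (r : ℂ)) (Complex.I * a / (r : ℂ))) := by gcongr
    _ = _ := by ring

end Pool.Agent.U500.Pt
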