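import Mathlib
import Pool.Agent.U500.Pt.Bump

set_option autoImplicit false

/-!
# The bumps
-/

open Metric Set Filter Topology
open scoped ContDiff InnerProductSpace

namespace Pool.Agent.U500.Pt

open Pool.Agent.U500.Inst Pool.Agent.U500.Cone

noncomputable def cc (k : ℕ) : ℝ := (1 / 100) ^ (k + 1)

lemma cc_pos (k : ℕ) : 0 < cc k := by unfold cc; positivity

lemma cc_le (k : ℕ) : cc k ≤ 1 / 100 := by
  unfold cc
  calc (1 / 100 : ℝ) ^ (k + 1) ≤ (1 / 100) ^ 1 :=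
        pow_le_pow_of_le_one (by norm_num) (by norm_num) (by omega)
    _ = _ := pow_one _

lemma cc_lt {j k : ℕ} (h : j < k) : cc k ≤ cc j / 100 := by
  unfold cc
  calc (1 / 100 : ℝ) ^ (k + 1) ≤ (1 / 100) ^ (j + 1 + 1) :=
        pow_le_pow_of_le_one (by norm_num) (by norm_num) (by omega)
    _ = _ := by rw [pow_succ]; ring

/-- `β = 1 - c²` -/
noncomputable def bt (k : ℕ) : ℝ := 1 - cc k ^ 2

lemma bt_ge (k : ℕ) : 0.9999 ≤ bt k := by
  unfold bt
  have h1 := cc_pos k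
  have h2 := cc_le k
  nlinarith

lemma bt_pos (k : ℕ) : 0 < bt k := by linarith [bt_ge k]

lemma bt_lt (k : ℕ) : bt k < 1 := by
  unfold bt
  have h1 := cc_pos k
  nlinarith

noncomputable def sb (k : ℕ) : ℝ := √(bt k)

lemma sb_sq (k : ℕ) : sb k ^ 2 = bt k := Real.sq_sqrt (bt_pos k).le

lemma sb_pos (k : ℕ) : 0 < sb k := Real.sqrt_pos.2 (bt_pos k)

lemma sb_lt (k : ℕ) : sb k < 1 := by
  have := sb_sq k
  have := bt_lt k
  have := sb_pos k
  nlinarith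

lemma one_sub_sb (k : ℕ) : 1 - sb k ≤ cc k ^ 2 := by
  have h1 := sb_sq k
  have h2 := sb_pos k
  have h3 := sb_lt k
  unfold bt at h1
  nlinarith

/-- the cutoff -/
noncomputable def cut (k : ℕ) : ContDiffBump ((sb k : ℝ) : ℂ) where
  rIn := cc k / 4
  rOut := cc k / 2
  rIn_pos := by have := cc_pos k; positivity
  rIn_lt_rOut := by have := cc_pos k; linarith

lemma cut_one {k : ℕ} {w : ℂ} (hw : ‖w - sb k‖ ≤ cc k / 4) : cut k w = 1 := by
  apply (cut k).one_of_mem_closedBall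
  rw [mem_closedBall, dist_eq_norm]
  exact hw

lemma cut_zero {k : ℕ} {w : ℂ} (hw : cc k / 2 ≤ ‖w - sb k‖) : cut k w = 0 := by
  apply (cut k).zero_of_le_dist
  rw [dist_eq_norm]
  exact hw

lemma cut_Bd (k : ℕ) : ∃ b1 b2, Bd (cut k) 1 b1 b2 := by
  obtain ⟨a0, a1, a2, h⟩ := exists_Bd (V := cut k) (cut k).contDiff (cut k).hasCompactSupport
  refine ⟨a1, a2, h.smooth, fun z => ?_, h.der, h.lip⟩
  rw [abs_of_nonneg ((cut k).nonneg)]
  exact (cut k).le_one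

lemma PP_Bd {m : ℕ} (hm : 0 < m) : ∃ a1 a2, Bd (PP m) 6.8 a1 a2 := by
  obtain ⟨a0, a1, a2, h⟩ := exists_Bd (contDiff_PP m) (PP_compact hm)
  refine ⟨a1, a2, h.smooth, fun z => ?_, h.der, h.lip⟩
  rw [abs_of_nonneg (PP_nonneg m z)]
  exact PP_le hm z

variable {n : ℕ}

/-- the `k`-th bump with parameter `s` -/
noncomputable def GK (k : ℕ) (s : ℝ) : (Fin (n + 2) → ℂ) → ℝ :=
  prd (scl (PP (k + 1)) (cc k : ℂ) (s * bt k) (2 * s ^ 2)) (cut k)

lemma GK_eq (k : ℕ) (s : ℝ) (x : Fin (n + 2) → ℂ) :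
    GK k s x = 2 * s ^ 2 * PP (k + 1) ((x 0 - cc k) / ((s * bt k : ℝ) : ℂ)) * cut k (x 1) := rfl

lemma contDiff_GK (k : ℕ) (s : ℝ) : ContDiff ℝ ∞ (GK (n := n) k s) :=
  contDiff_prd (contDiff_scl (contDiff_PP (k + 1)) _ _ _) (cut k).contDiff

lemma GK_nonneg (k : ℕ) (s : ℝ) (x : Fin (n + 2) → ℂ) : 0 ≤ GK k s x := by
  rw [GK_eq]
  have := PP_nonneg (k + 1) ((x 0 - cc k) / ((s * bt k : ℝ) : ℂ))
  have := (cut k).nonneg (x := x 1)
  positivity

lemma GK_zero0 {k : ℕ} {s : ℝ} (hs : 0 < s) (hs1 : s ≤ cc k / 1000) {x : Fin (n + 2) → ℂ}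
    (hx : cc k / 100 ≤ ‖x 0 - cc k‖) : GK k s x = 0 := by
  rw [GK_eq, PP_far (Nat.succ_pos k), mul_zero, zero_mul]
  have hβ := bt_pos k
  have hβ1 := bt_lt k
  have hc := cc_pos k
  have hr : 0 < s * bt k := by positivity
  rw [norm_div, Complex.norm_real, Real.norm_of_nonneg hr.le, le_div_iff₀ hr]
  nlinarith

lemma GK_zero1 {k : ℕ} {s : ℝ} {x : Fin (n + 2) → ℂ} (hx : cc k / 2 ≤ ‖x 1 - sb k‖) :
    GK k s x = 0 := by
  rw [GK_eq, cut_zero hx, mul_zero]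

/-- the estimates for small `s` -/
lemma GK_small (k : ℕ) : ∃ K L : ℝ, 0 < K ∧ 0 < L ∧ ∀ s : ℝ, 0 < s → s ≤ 1 →
    (∀ x : Fin (n + 2) → ℂ, GK k s x ≤ 14 * s) ∧
    (∀ x : Fin (n + 2) → ℂ, ‖fderiv ℝ (GK k s) x‖ ≤ K * s) ∧
    (∀ x y : Fin (n + 2) → ℂ, ‖fderiv ℝ (GK k s) x - fderiv ℝ (GK k s) y‖ ≤ L * ‖x - y‖) ∧
    (∀ x v : Fin (n + 2) → ℂ, -((0.6 + K * s) * nsq v) ≤ leviForm (GK k s) x v) := by
  obtain ⟨M1, M2, hP⟩ := PP_Bd (Nat.succ_pos k)
  obtain ⟨b1, b2, hB⟩ := cut_Bd k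
  have e1 := hP.nn1
  have e2 := hP.nn2
  have e3 := hB.nn1
  have e4 := hB.nn2
  have hβ := bt_pos k
  have hβg := bt_ge k
  have hβi : (bt k)⁻¹ ≤ 1.001 := by
    rw [inv_le_comm₀ hβ (by norm_num)]
    norm_num
    norm_num at hβg
    linarith
  have hβi0 : 0 < (bt k)⁻¹ := by positivity
  refine ⟨14 * b1 + 3 * M1 + 3 * M1 * b1 + 7 * b2 + 1, 14 * b2 + 8 * M1 * b1 + 3 * M2 + 1,
    by positivity, by positivity, fun s hs hs1 => ?_⟩
  have hr : 0 < s * bt k := by positivity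
  have hA := hP.scl (cc k : ℂ) hr (by positivity : 0 ≤ 2 * s ^ 2)
  have f1 : 2 * s ^ 2 * (s * bt k)⁻¹ = 2 * s * (bt k)⁻¹ := by
    field_simp
  have f2 : 2 * s ^ 2 * (s * bt k)⁻¹ * (s * bt k)⁻¹ = 2 * (bt k)⁻¹ * (bt k)⁻¹ := by
    field_simp
  rw [f2, f1] at hA
  have hs2 : s ^ 2 ≤ s := by nlinarith
  have hβ2 : (bt k)⁻¹ * (bt k)⁻¹ ≤ 1.1 := by nlinarith
  have g1 : 2 * s * (bt k)⁻¹ * M1 ≤ 3 * M1 * s := by
    have : 2 * s * (bt k)⁻¹ * M1 = 2 * (M1 * s) * (bt k)⁻¹ := by ring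
    rw [this]
    have h0 : 0 ≤ M1 * s := by positivity
    nlinarith
  have g0 : 2 * s ^ 2 * 6.8 ≤ 14 * s := by linarith
  refine ⟨fun x => ?_, fun x => ?_, fun x y => ?_, fun x v => ?_⟩
  · have h1 := prd_val hA hB x
    have h2 : GK k s x ≤ |GK k s x| := le_abs_self _
    have h3 : |GK k s x| ≤ 2 * s ^ 2 * 6.8 * 1 := h1
    linarith
  · refine (prd_der hA hB x).trans ?_
    have h1 : 2 * s ^ 2 * 6.8 * b1 ≤ 14 * s * b1 := by gcongr
    have h2 : 0 ≤ M1 * b1 * s := by positivity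
    have h3 : 0 ≤ b2 * s := by positivity
    nlinarith
  · refine (prd_lip hA hB x y).trans (mul_le_mul_of_nonneg_right ?_ (norm_nonneg _))
    have h1 : 2 * s ^ 2 * 6.8 * b2 ≤ 14 * b2 := by nlinarith
    have h2 : 2 * (2 * s * (bt k)⁻¹ * M1) * b1 ≤ 8 * M1 * b1 := by
      have h3 : 2 * s * (bt k)⁻¹ * M1 ≤ 3 * M1 := g1.trans (by nlinarith)
      have h4 : 2 * (2 * s * (bt k)⁻¹ * M1) * b1 ≤ 2 * (3 * M1) * b1 := by gcongr
      have h5 : 0 ≤ M1 * b1 := by positivity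
      linarith
    have h3 : 1 * (2 * (bt k)⁻¹ * (bt k)⁻¹ * M2) ≤ 3 * M2 := by
      have : 1 * (2 * (bt k)⁻¹ * (bt k)⁻¹ * M2) = 2 * ((bt k)⁻¹ * (bt k)⁻¹) * M2 := by ring
      rw [this]
      nlinarith
    linarith
  · have h1 := levi_prd hA hB (fun z => (cut k).nonneg) (fun z => (cut k).le_one)
      (c := 2 * (bt k)⁻¹ * (bt k)⁻¹) (by positivity) (fun z a => by
        have h2 := L2_scl_PP (Nat.succ_pos k) (cc k : ℂ) hr (by positivity : 0 ≤ 2 * s ^ 2) z a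
        rw [f2] at h2
        exact h2) x v
    refine le_trans ?_ h1
    have hv : 0 ≤ nsq v := by unfold nsq; positivity
    refine neg_le_neg (mul_le_mul_of_nonneg_right ?_ hv)
    have h3 : 2 * (bt k)⁻¹ * (bt k)⁻¹ / 4 ≤ 0.6 := by
      have : 2 * (bt k)⁻¹ * (bt k)⁻¹ / 4 = ((bt k)⁻¹ * (bt k)⁻¹) / 2 := by ring
      rw [this]
      linarith
    have h4 : 2 * s * (bt k)⁻¹ * M1 * b1 / 2 ≤ 3 * M1 * b1 * s := by
      have h5 : 2 * s * (bt k)⁻¹ * M1 * b1 ≤ 3 * M1 * s * b1 := by gcongr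
      have h6 : 0 ≤ M1 * b1 * s := by positivity
      linarith
    have h5 : 2 * s ^ 2 * 6.8 * b2 / 2 ≤ 7 * b2 * s := by
      have h6 : 2 * s ^ 2 * 6.8 * b2 ≤ 14 * s * b2 := by gcongr
      linarith
    have h7 : 0 ≤ b1 * s := by positivity
    have h8 : 0 ≤ M1 * s := by positivity
    nlinarith

/-- the conditions on the sequence `s` -/
structure Good (n : ℕ) (η : ℝ) (om : ℝ → ℝ) (s : ℕ → ℝ) : Prop where
  pos : ∀ k, 0 < s k
  le : ∀ k, s k ≤ cc k ^ 2 / 1000000 * (1 / 2) ^ (k + 1)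
  val : ∀ k (x : Fin (n + 2) → ℂ), GK k (s k) x ≤ η * (1 / 2) ^ (k + 1)
  der : ∀ k (x : Fin (n + 2) → ℂ), ‖fderiv ℝ (GK k (s k)) x‖ ≤ η * (1 / 2) ^ (k + 1)
  mod : ∀ k (x y : Fin (n + 2) → ℂ), x ≠ y →
    ‖fderiv ℝ (GK k (s k)) x - fderiv ℝ (GK k (s k)) y‖ ≤ η * (1 / 2) ^ (k + 1) * om ‖x - y‖
  levi : ∀ k (x v : Fin (n + 2) → ℂ), -(3 / 4 * nsq v) ≤ leviForm (GK k (s k)) x v

/-- existence of good sequences -/
lemma exists_good (n : ℕ) {η : ℝ} (hη : 0 < η) {om : ℝ → ℝ} (hpos : ∀ r, 0 < r → 0 < om r)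
    (hmono : MonotoneOn om (Ioi 0)) (hlim : Tendsto (fun r => om r / r) (𝓝[>] 0) atTop) :
    ∃ s, Good n η om s := by
  have key : ∀ k : ℕ, ∃ s : ℝ, 0 < s ∧ s ≤ cc k ^ 2 / 1000000 * (1 / 2) ^ (k + 1) ∧
      (∀ x : Fin (n + 2) → ℂ, GK k s x ≤ η * (1 / 2) ^ (k + 1)) ∧
      (∀ x : Fin (n + 2) → ℂ, ‖fderiv ℝ (GK k s) x‖ ≤ η * (1 / 2) ^ (k + 1)) ∧
      (∀ x y : Fin (n + 2) → ℂ, x ≠ y →
        ‖fderiv ℝ (GK k s) x - fderiv ℝ (GK k s) y‖ ≤ η * (1 / 2) ^ (k + 1) * om ‖x - y‖) ∧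
      (∀ x v : Fin (n + 2) → ℂ, -(3 / 4 * nsq v) ≤ leviForm (GK k s) x v) := by
    intro k
    obtain ⟨K, L, hK, hL, hKL⟩ := GK_small (n := n) k
    set ε : ℝ := η * (1 / 2) ^ (k + 1) with hε
    have hε0 : 0 < ε := by positivity
    obtain ⟨r0, hr0, hr⟩ : ∃ r0 : ℝ, 0 < r0 ∧ ∀ r, 0 < r → r < r0 → L * r ≤ ε * om r := by
      have h1 := hlim.eventually_ge_atTop (L / ε)
      rw [eventually_nhdsWithin_iff, Metric.eventually_nhds_iff] at h1
      obtain ⟨r0, hr0, h2⟩ := h1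
      refine ⟨r0, hr0, fun r h3 h4 => ?_⟩
      have h5 := h2 (y := r) (by rw [Real.dist_eq, sub_zero, abs_of_pos h3]; exact h4) h3
      rw [div_le_div_iff₀ hε0 h3] at h5
      linarith
    have ho := hpos r0 hr0
    have hc := cc_pos k
    set S : ℝ := min (min (cc k ^ 2 / 1000000 * (1 / 2) ^ (k + 1)) (ε / 14))
      (min (min (ε / K) (1 / 10 / K)) (ε * om r0 / (2 * K))) with hS
    have hS0 : 0 < S := by
      rw [hS]
      refine lt_min (lt_min ?_ ?_) (lt_min (lt_min ?_ ?_) ?_) <;> positivity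
    have s1 : S ≤ cc k ^ 2 / 1000000 * (1 / 2) ^ (k + 1) :=
      (min_le_left _ _).trans (min_le_left _ _)
    have s2 : S ≤ ε / 14 := (min_le_left _ _).trans (min_le_right _ _)
    have s3 : S ≤ ε / K := (min_le_right _ _).trans ((min_le_left _ _).trans (min_le_left _ _))
    have s4 : S ≤ 1 / 10 / K :=
      (min_le_right _ _).trans ((min_le_left _ _).trans (min_le_right _ _))
    have s5 : S ≤ ε * om r0 / (2 * K) := (min_le_right _ _).trans (min_le_right _ _)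
    have s6 : S ≤ 1 := by
      refine s1.trans ?_
      have h1 := cc_le k
      have h2 : (1 / 2 : ℝ) ^ (k + 1) ≤ 1 := pow_le_one₀ (by norm_num) (by norm_num)
      have h3 : cc k ^ 2 ≤ 1 := by nlinarith
      calc cc k ^ 2 / 1000000 * (1 / 2) ^ (k + 1) ≤ 1 / 1000000 * 1 := by gcongr
        _ ≤ 1 := by norm_num
    rw [le_div_iff₀ (by norm_num)] at s2
    rw [le_div_iff₀ hK] at s3 s4
    rw [le_div_iff₀ (by positivity)] at s5
    obtain ⟨k1, k2, k3, k4⟩ := hKL S hS0 s6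
    refine ⟨S, hS0, s1, fun x => (k1 x).trans (by linarith), fun x => (k2 x).trans (by linarith),
      fun x y hxy => ?_, fun x v => le_trans ?_ (k4 x v)⟩
    · have hd : 0 < ‖x - y‖ := norm_pos_iff.2 (sub_ne_zero.2 hxy)
      by_cases hlt : ‖x - y‖ < r0
      · exact (k3 x y).trans (hr _ hd hlt)
      · push Not at hlt
        calc _ ≤ ‖fderiv ℝ (GK k S) x‖ + ‖fderiv ℝ (GK k S) y‖ := norm_sub_le _ _
          _ ≤ K * S + K * S := add_le_add (k2 x) (k2 y)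
          _ ≤ ε * om r0 := by linarith
          _ ≤ ε * om ‖x - y‖ := by
              gcongr
              exact hmono hr0 (hr0.trans_le hlt) hlt
    · have hv : 0 ≤ nsq v := by unfold nsq; positivity
      apply neg_le_neg
      gcongr
      linarith
  choose s h1 h2 h3 h4 h5 h6 using key
  exact ⟨s, h1, h2, h3, h4, h5, h6⟩

variable {η : ℝ} {om : ℝ → ℝ} {s : ℕ → ℝ}

lemma Good.le1 (h : Good n η om s) (k : ℕ) : s k ≤ cc k / 1000 := by
  refine (h.le k).trans ?_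
  have h1 := cc_pos k
  have h2 := cc_le k
  have h3 : (1 / 2 : ℝ) ^ (k + 1) ≤ 1 := pow_le_one₀ (by norm_num) (by norm_num)
  have h4 : cc k ^ 2 ≤ cc k := by nlinarith
  calc cc k ^ 2 / 1000000 * (1 / 2) ^ (k + 1) ≤ cc k / 1000000 * 1 := by gcongr
    _ ≤ _ := by linarith

lemma sumgeo (η : ℝ) : HasSum (fun k : ℕ => η * (1 / 2 : ℝ) ^ (k + 1)) η := by
  have h1 := (hasSum_geometric_two).mul_left (η / 2)
  have h2 : (fun k : ℕ => η * (1 / 2 : ℝ) ^ (k + 1)) = fun k => η / 2 * (1 / 2) ^ k := by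
    funext k; rw [pow_succ]; ring
  rw [h2]
  rwa [show η / 2 * 2 = η by ring] at h1

/-- the sum of the bumps -/
noncomputable def gS (n : ℕ) (s : ℕ → ℝ) (x : Fin (n + 2) → ℂ) : ℝ := ∑' k, GK k (s k) x

lemma Good.η_nonneg (h : Good n η om s) : 0 ≤ η := by
  have h1 := h.val 0 0
  have h2 := GK_nonneg 0 (s 0) (0 : Fin (n + 2) → ℂ)
  have h3 : 0 ≤ η * (1 / 2 : ℝ) ^ (0 + 1) := h2.trans h1
  linarith

lemma Good.summable (h : Good n η om s) (x : Fin (n + 2) → ℂ) : Summable fun k => GK k (s k) x :=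
  Summable.of_nonneg_of_le (fun k => GK_nonneg k _ x) (fun k => h.val k x) (sumgeo η).summable

lemma Good.g_nonneg (_h : Good n η om s) (x : Fin (n + 2) → ℂ) : 0 ≤ gS n s x :=
  tsum_nonneg fun k => GK_nonneg k _ x

lemma Good.g_le (h : Good n η om s) (x : Fin (n + 2) → ℂ) : gS n s x ≤ η :=
  (h.summable x).tsum_le_of_sum_le fun F => by
    calc ∑ k ∈ F, GK k (s k) x ≤ ∑ k ∈ F, η * (1 / 2 : ℝ) ^ (k + 1) :=
          Finset.sum_le_sum fun k _ => h.val k x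
      _ ≤ η := sum_le_hasSum F (fun k _ => by have := h.η_nonneg; positivity) (sumgeo η)

lemma Good.GK_le_g (h : Good n η om s) (k : ℕ) (x : Fin (n + 2) → ℂ) :
    GK k (s k) x ≤ gS n s x :=
  (h.summable x).le_tsum k fun j _ => GK_nonneg j _ x

lemma near_unique {z : ℂ} {j k : ℕ} (hj : ‖z - cc j‖ < cc j / 10)
    (hk : ‖z - cc k‖ < cc k / 10) : j = k := by
  have hcj := cc_pos j
  have hck := cc_pos k
  have h1 : |cc j - cc k| < cc j / 10 + cc k / 10 := by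
    have h2 : ‖((cc j - cc k : ℝ) : ℂ)‖ ≤ ‖z - cc j‖ + ‖z - cc k‖ := by
      have : ((cc j - cc k : ℝ) : ℂ) = -(z - cc j) + (z - cc k) := by push_cast; ring
      rw [this]
      refine (norm_add_le _ _).trans ?_
      rw [norm_neg]
    rw [Complex.norm_real, Real.norm_eq_abs] at h2
    linarith
  obtain ⟨h3, h4⟩ := abs_lt.1 h1
  rcases lt_trichotomy j k with h | h | h
  · have := cc_lt h
    linarith
  · exact h
  · have := cc_lt h
    linarith

lemma Good.g_eq (h : Good n η om s) {k : ℕ} {x : Fin (n + 2) → ℂ}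
    (hx : ‖x 0 - cc k‖ < cc k / 10) : gS n s x = GK k (s k) x := by
  unfold gS
  apply tsum_eq_single k
  intro j hj
  apply GK_zero0 (h.pos j) (h.le1 j)
  by_contra hcon
  push Not at hcon
  have := cc_pos j
  exact hj (near_unique (hcon.trans (by linarith)) hx)

lemma Good.contDiff (h : Good n η om s) : ContDiff ℝ 1 (gS n s) := by
  apply contDiff_tsum (v := fun _ k => η * (1 / 2 : ℝ) ^ (k + 1))
  · intro k
    exact (contDiff_GK k (s k)).of_le (by exact_mod_cast le_top)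
  · intro k _
    exact (sumgeo η).summable
  · intro k i x hk
    have hk' : k ≤ 1 := by exact_mod_cast hk
    interval_cases k
    · rw [norm_iteratedFDeriv_zero, Real.norm_of_nonneg (GK_nonneg i _ x)]
      exact h.val i x
    · rw [norm_iteratedFDeriv_one]
      exact h.der i x

lemma Good.fderiv_eq (h : Good n η om s) (x : Fin (n + 2) → ℂ) :
    fderiv ℝ (gS n s) x = ∑' k, fderiv ℝ (GK k (s k)) x :=
  congrFun (fderiv_tsum (𝕜 := ℝ) (f := fun k => GK (n := n) k (s k)) (sumgeo η).summable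
    (fun k => (contDiff_GK k (s k)).differentiable (by simp)) (fun k x => h.der k x)
    (x₀ := 0) (h.summable 0)) x

lemma Good.fderiv_le (h : Good n η om s) (x : Fin (n + 2) → ℂ) : ‖fderiv ℝ (gS n s) x‖ ≤ η := by
  rw [h.fderiv_eq]
  exact tsum_of_norm_bounded (sumgeo η) fun k => h.der k x

lemma Good.fderiv_mod (h : Good n η om s) {x y : Fin (n + 2) → ℂ} (hxy : x ≠ y) :
    ‖fderiv ℝ (gS n s) x - fderiv ℝ (gS n s) y‖ ≤ η * om ‖x - y‖ := by
  have hs : ∀ x : Fin (n + 2) → ℂ, Summable fun k => fderiv ℝ (GK (n := n) k (s k)) x := fun x =>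
    Summable.of_norm_bounded (sumgeo η).summable fun k => h.der k x
  rw [h.fderiv_eq, h.fderiv_eq, ← (hs x).tsum_sub (hs y)]
  refine tsum_of_norm_bounded ((sumgeo η).mul_right (om ‖x - y‖)) fun k => ?_
  exact h.mod k x y hxy

/-- near a point with `(x 0, x 1) ≠ (0, 1)`, `g` is one of the bumps, or `0` -/
lemma Good.local (h : Good n η om s) {x : Fin (n + 2) → ℂ} (hx : x 0 ≠ 0 ∨ x 1 ≠ 1) :
    (∃ k, gS n s =ᶠ[𝓝 x] GK k (s k)) ∨ gS n s =ᶠ[𝓝 x] fun _ => 0 := by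
  have hc0 : Continuous (fun x : Fin (n + 2) → ℂ => x 0) := continuous_apply 0
  by_cases hk : ∃ k, ‖x 0 - cc k‖ < cc k / 10
  · obtain ⟨k, hk⟩ := hk
    left
    refine ⟨k, ?_⟩
    have hopen : IsOpen {y : Fin (n + 2) → ℂ | ‖y 0 - cc k‖ < cc k / 10} :=
      isOpen_lt (by fun_prop) continuous_const
    filter_upwards [hopen.mem_nhds hk] with y hy
    exact h.g_eq hy
  · push Not at hk
    right
    set δ : ℝ := ‖x 0‖ + ‖x 1 - 1‖ with hδ
    have hδ0 : 0 < δ := by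
      rcases hx with hx | hx
      · have := norm_pos_iff.2 hx
        have := norm_nonneg (x 1 - 1)
        linarith
      · have := norm_pos_iff.2 (sub_ne_zero.2 hx)
        have := norm_nonneg (x 0)
        linarith
    filter_upwards [ball_mem_nhds x (by positivity : 0 < δ / 100)] with y hy
    rw [mem_ball, dist_eq_norm] at hy
    have hy0 : ‖y 0 - x 0‖ < δ / 100 := (norm_le_pi_norm (y - x) 0).trans_lt hy
    have hy1 : ‖y 1 - x 1‖ < δ / 100 := (norm_le_pi_norm (y - x) 1).trans_lt hy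
    unfold gS
    have hall : ∀ k, GK k (s k) y = 0 := by
      intro k
      have hck := cc_pos k
      have hck1 := cc_le k
      by_contra hne
      have a0 : ‖y 0 - cc k‖ < cc k / 100 := by
        by_contra hcon
        push Not at hcon
        exact hne (GK_zero0 (h.pos k) (h.le1 k) hcon)
      have a1 : ‖y 1 - sb k‖ < cc k / 2 := by
        by_contra hcon
        push Not at hcon
        exact hne (GK_zero1 hcon)
      have b0 : ‖x 0 - cc k‖ ≤ δ / 100 + cc k / 100 := by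
        calc ‖x 0 - cc k‖ = ‖-(y 0 - x 0) + (y 0 - cc k)‖ := by congr 1; ring
          _ ≤ ‖-(y 0 - x 0)‖ + ‖y 0 - cc k‖ := norm_add_le _ _
          _ ≤ _ := by rw [norm_neg]; linarith
      have b1 := hk k
      -- `c ≤ δ / 9`
      have b2 : 9 * cc k ≤ δ := by linarith
      have b3 : ‖x 0‖ ≤ δ / 100 + cc k / 100 + cc k := by
        calc ‖x 0‖ = ‖(x 0 - cc k) + cc k‖ := by congr 1; ring
          _ ≤ ‖x 0 - cc k‖ + ‖(cc k : ℂ)‖ := norm_add_le _ _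
          _ ≤ _ := by
              rw [Complex.norm_real, Real.norm_of_nonneg hck.le]
              linarith
      have b4 : ‖x 1 - 1‖ ≤ δ / 100 + cc k / 2 + cc k ^ 2 := by
        calc ‖x 1 - 1‖ = ‖-(y 1 - x 1) + (y 1 - sb k) + ((sb k : ℂ) - 1)‖ := by congr 1; ring
          _ ≤ ‖-(y 1 - x 1)‖ + ‖y 1 - sb k‖ + ‖(sb k : ℂ) - 1‖ := norm_add₃_le
          _ ≤ _ := by
              have h1 : ‖(sb k : ℂ) - 1‖ = 1 - sb k := by
                rw [norm_sub_rev, ← Complex.ofReal_one, ← Complex.ofReal_sub, Complex.norm_real,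
                  Real.norm_of_nonneg (by linarith [sb_lt k])]
              rw [norm_neg, h1]
              linarith [one_sub_sb k]
      have b5 : cc k ^ 2 ≤ cc k / 100 := by nlinarith
      linarith
    simp [hall]

end Pool.Agent.U500.Pt
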