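import Mathlib
import Pool.Agent.U500.Pt.Geo
import Pool.Agent.U500.Inst.Fin
import Pool.Agent.U500.Cone.Dom

set_option autoImplicit false

/-!
# The domain
-/

open Metric Set Filter Topology
open scoped ContDiff InnerProductSpace

namespace Pool.Agent.U500.Pt

open Pool.Agent.U500.Inst Pool.Agent.U500.Cone

variable {n : ℕ} {η : ℝ} {om : ℝ → ℝ} {s : ℕ → ℝ}

/-- the defining function -/
noncomputable def rh (n : ℕ) (s : ℕ → ℝ) (x : Fin (n + 2) → ℂ) : ℝ := nsq x - 1 + gS n s x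

lemma nsq_nonneg {m : ℕ} (v : Fin m → ℂ) : 0 ≤ nsq v := by unfold nsq; positivity

lemma Good.contDiff_rh (h : Good n η om s) : ContDiff ℝ 1 (rh n s) :=
  (contDiff_nsq.sub contDiff_const).add h.contDiff

lemma rh_congr {G : (Fin (n + 2) → ℂ) → ℝ} {x : Fin (n + 2) → ℂ} (h : gS n s =ᶠ[𝓝 x] G) :
    rh n s =ᶠ[𝓝 x] fun x => nsq x - 1 + G x := by
  filter_upwards [h] with y hy
  unfold rh
  rw [hy]

lemma Good.smooth_at (h : Good n η om s) {x : Fin (n + 2) → ℂ} (hx : x 0 ≠ 0 ∨ x 1 ≠ 1) :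
    ContDiffAt ℝ ∞ (rh n s) x := by
  rcases h.local hx with ⟨k, hk⟩ | h0
  · exact ((contDiff_nsq.sub contDiff_const).add
      (contDiff_GK k (s k))).contDiffAt.congr_of_eventuallyEq (rh_congr hk)
  · exact ((contDiff_nsq.sub contDiff_const).add
      contDiff_const).contDiffAt.congr_of_eventuallyEq (rh_congr h0)

/-- line derivative of `nsq` -/
lemma line_nsq (x v : Fin (n + 2) → ℂ) (σ : ℝ) :
    HasDerivAt (fun σ : ℝ => nsq (x + σ • v))
      (2 * ⟪x 0 + σ • v 0, v 0⟫_ℝ + N1 (x + σ • v) v) σ := by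
  have h2 := (hasDerivAt_line (x 0) (v 0) σ).norm_sq.add (line_NN x v σ)
  refine h2.congr_of_eventuallyEq (Filter.Eventually.of_forall fun τ => ?_)
  change nsq (x + τ • v) = ‖x 0 + τ • v 0‖ ^ 2 + NN (x + τ • v)
  rw [nsq_eq]
  rfl

lemma line_gen {G : (Fin (n + 2) → ℂ) → ℝ} (hG : Differentiable ℝ G) (x v : Fin (n + 2) → ℂ)
    (σ : ℝ) : HasDerivAt (fun σ : ℝ => G (x + σ • v)) (fderiv ℝ G (x + σ • v) v) σ := by
  have h1 : HasDerivAt (fun σ : ℝ => x + σ • v) v σ := by
    simpa using ((hasDerivAt_id σ).smul_const v).const_add x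
  exact (hG (x + σ • v)).hasFDerivAt.comp_hasDerivAt σ h1

lemma line_gen1 {G : (Fin (n + 2) → ℂ) → ℝ} (hG : ContDiff ℝ ∞ G) (x v : Fin (n + 2) → ℂ) :
    HasDerivAt (fun σ : ℝ => fderiv ℝ G (x + σ • v) v)
      (iteratedDeriv 2 (fun σ : ℝ => G (x + σ • v)) 0) 0 := by
  have hd : Differentiable ℝ G := hG.differentiable (by simp)
  set g : ℝ → ℝ := fun σ => G (x + σ • v) with hg
  have hgc : ContDiff ℝ ∞ g := by
    apply hG.comp
    exact contDiff_const.add (contDiff_id.smul contDiff_const)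
  have h1 : iteratedDeriv 1 g = fun σ : ℝ => fderiv ℝ G (x + σ • v) v := by
    rw [iteratedDeriv_one]
    funext σ
    exact (line_gen hd x v σ).deriv
  have h2 : Differentiable ℝ (iteratedDeriv 1 g) :=
    hgc.differentiable_iteratedDeriv 1 (by
      rw [show ((1 : ℕ) : WithTop ℕ∞) = ((1 : ℕ∞) : WithTop ℕ∞) from rfl]
      exact_mod_cast WithTop.coe_lt_top 1)
  have h3 : iteratedDeriv 2 g 0 = deriv (iteratedDeriv 1 g) 0 := by
    rw [iteratedDeriv_succ]
  rw [h3, ← h1]
  exact (h2 0).hasDerivAt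

/-- the Levi form of `|x|² - 1 + G` -/
lemma levi_add {G : (Fin (n + 2) → ℂ) → ℝ} (hG : ContDiff ℝ ∞ G) (x v : Fin (n + 2) → ℂ) :
    leviForm (fun x => nsq x - 1 + G x) x v = nsq v + leviForm G x v := by
  have hd : Differentiable ℝ G := hG.differentiable (by simp)
  have key : ∀ v : Fin (n + 2) → ℂ,
      iteratedDeriv 2 (fun σ : ℝ => nsq (x + σ • v) - 1 + G (x + σ • v)) 0 =
        2 * nsq v + iteratedDeriv 2 (fun σ : ℝ => G (x + σ • v)) 0 := by
    intro v
    have h1 : ∀ σ : ℝ, HasDerivAt (fun σ : ℝ => nsq (x + σ • v) - 1 + G (x + σ • v))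
        ((2 * ⟪x 0 + σ • v 0, v 0⟫_ℝ + N1 (x + σ • v) v) + fderiv ℝ G (x + σ • v) v) σ := fun σ =>
      ((line_nsq x v σ).sub_const 1).add (line_gen hd x v σ)
    have h2 := ((((hasDerivAt_line (x 0) (v 0) 0).inner ℝ
      (hasDerivAt_const (0 : ℝ) (v 0))).const_mul 2).add (line_N1 x v 0)).add (line_gen1 hG x v)
    rw [iter2 h1 h2, inner_zero_right, zero_add, real_inner_self_eq_norm_sq, nsq_eq]
    ring
  unfold leviForm
  rw [key, key, nsq_I]
  ring

/-- the Levi form of the defining function -/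
lemma Good.levi_rh (h : Good n η om s) {x : Fin (n + 2) → ℂ} (hx : x 0 ≠ 0 ∨ x 1 ≠ 1)
    (v : Fin (n + 2) → ℂ) : nsq v / 4 ≤ leviForm (rh n s) x v := by
  have hv := nsq_nonneg v
  rcases h.local hx with ⟨k, hk⟩ | h0
  · rw [leviForm_congr (rh_congr hk), levi_add (contDiff_GK k (s k))]
    have := h.levi k x v
    linarith
  · rw [leviForm_congr (rh_congr h0), levi_add contDiff_const]
    have h1 : leviForm (fun _ : Fin (n + 2) → ℂ => (0 : ℝ)) x v = 0 := by
      unfold leviForm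
      simp
    rw [h1]
    linarith

lemma Good.dom_sub (h : Good n η om s) {x : Fin (n + 2) → ℂ} (hx : rh n s x < 0) : nsq x < 1 := by
  unfold rh at hx
  have := h.g_nonneg x
  linarith

lemma Good.sub_dom (h : Good n η om s) (hη : η ≤ 1) {x : Fin (n + 2) → ℂ}
    (hx : nsq x < (1 - η) ^ 2) : rh n s x < 0 := by
  unfold rh
  have h1 := h.g_le x
  have h2 := h.η_nonneg
  nlinarith

lemma Good.isOpen (h : Good n η om s) : IsOpen {x | rh n s x < 0} :=
  isOpen_lt h.contDiff_rh.continuous continuous_const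

lemma Good.front (h : Good n η om s) {x : Fin (n + 2) → ℂ}
    (hx : x ∈ frontier {x | rh n s x < 0}) : rh n s x = 0 :=
  frontier_lt_subset_eq h.contDiff_rh.continuous continuous_const hx

lemma norm_le_one {x : Fin (n + 2) → ℂ} (hx : nsq x ≤ 1) : ‖x‖ ≤ 1 := by
  rw [pi_norm_le_iff_of_nonneg zero_le_one]
  intro i
  have h1 : ‖x i‖ ^ 2 ≤ nsq x :=
    Finset.single_le_sum (f := fun i => ‖x i‖ ^ 2) (fun _ _ => by positivity) (Finset.mem_univ i)
  nlinarith [norm_nonneg (x i)]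

lemma nsq_smul {m : ℕ} (t : ℝ) (x : Fin m → ℂ) : nsq (t • x) = t ^ 2 * nsq x := by
  unfold nsq
  rw [Finset.mul_sum]
  refine Finset.sum_congr rfl fun i _ => ?_
  rw [Pi.smul_apply, norm_smul, mul_pow, Real.norm_eq_abs, sq_abs]

lemma Good.fderiv_ne (h : Good n η om s) (hη : η ≤ 1 / 4) {x : Fin (n + 2) → ℂ}
    (hx : rh n s x = 0) : fderiv ℝ (rh n s) x ≠ 0 := by
  intro h0
  have h1 := h.g_nonneg x
  have h2 := h.g_le x
  have hx' : nsq x - 1 + gS n s x = 0 := hx
  have h3 : nsq x ≤ 1 := by linarith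
  have hd : DifferentiableAt ℝ (rh n s) x := h.contDiff_rh.differentiable (by simp) x
  have h4 := hd.lineDeriv_eq_fderiv (v := x)
  rw [h0, _root_.zero_apply] at h4
  have h5 := ((line_nsq x x 0).sub_const 1).add
    (line_gen (h.contDiff.differentiable (by simp)) x x 0)
  have h6 : lineDeriv ℝ (rh n s) x x = _ := h5.deriv
  rw [h6] at h4
  rw [zero_smul, add_zero, zero_smul, add_zero, real_inner_self_eq_norm_sq] at h4
  have h7 : N1 x x = 2 * NN x := by
    unfold N1 NN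
    rw [Finset.mul_sum]
    simp
  have h8 : |fderiv ℝ (gS n s) x x| ≤ η * 1 := by
    refine ((fderiv ℝ (gS n s) x).le_opNorm x).trans ?_
    have := h.η_nonneg
    gcongr
    · exact h.fderiv_le x
    · exact norm_le_one h3
  have h9 := (abs_le.1 h8).1
  rw [h7] at h4
  have h10 := nsq_eq x
  linarith

lemma Good.rh_zero (h : Good n η om s) (hη : η ≤ 1 / 4) : rh n s 0 < 0 := by
  apply h.sub_dom (by linarith)
  have h1 : nsq (0 : Fin (n + 2) → ℂ) = 0 := by unfold nsq; simp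
  rw [h1]
  have : 0 < 1 - η := by linarith
  positivity

/-- `D` is star-shaped -/
lemma Good.star (h : Good n η om s) (hη : η ≤ 1 / 4) {x : Fin (n + 2) → ℂ} (hx : rh n s x < 0)
    {t : ℝ} (ht0 : 0 ≤ t) (ht1 : t ≤ 1) : rh n s (t • x) < 0 := by
  have hb := h.dom_sub hx
  have hη0 := h.η_nonneg
  have hx0 := nsq_nonneg x
  by_cases hs : nsq x < η
  · apply h.sub_dom (by linarith)
    rw [nsq_smul]
    have : t ^ 2 ≤ 1 := by nlinarith
    have h3 : t ^ 2 * nsq x ≤ nsq x := by nlinarith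
    nlinarith
  · push Not at hs
    have hx' : nsq x - 1 + gS n s x < 0 := hx
    unfold rh
    rw [nsq_smul]
    have h1 : |gS n s (t • x) - gS n s x| ≤ η * ‖t • x - x‖ :=
      Convex.norm_image_sub_le_of_norm_fderiv_le
        (fun y _ => h.contDiff.differentiable (by simp) y) (fun y _ => h.fderiv_le y)
        convex_univ (mem_univ x) (mem_univ _)
    have h2 : ‖t • x - x‖ ≤ (1 - t) := by
      have : t • x - x = -((1 - t) • x) := by rw [sub_smul, one_smul]; abel
      rw [this, norm_neg, norm_smul, Real.norm_of_nonneg (by linarith)]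
      have := norm_le_one hb.le
      nlinarith
    have h3 := (abs_le.1 h1).2
    have h4 : η * ‖t • x - x‖ ≤ η * (1 - t) := by gcongr
    have h5 : t ^ 2 * nsq x ≤ nsq x - (1 - t) * nsq x := by
      have h7 : t ^ 2 ≤ t := by nlinarith
      have h8 : t ^ 2 * nsq x ≤ t * nsq x := by gcongr
      linarith
    have h6 : η * (1 - t) ≤ (1 - t) * nsq x := by nlinarith
    linarith

lemma Good.connected (h : Good n η om s) (hη : η ≤ 1 / 4) : IsConnected {x | rh n s x < 0} := by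
  refine IsPathConnected.isConnected ⟨0, h.rh_zero hη, fun x hx => ?_⟩
  apply JoinedIn.of_segment_subset
  rintro _ ⟨a, b, ha, hb, hab, rfl⟩
  rw [smul_zero, zero_add]
  exact h.star hη hx hb (by linarith)

/-- the exceptional point -/
noncomputable def qq (n : ℕ) : Fin (n + 2) → ℂ := vec n 0 1

lemma nsq_vec' (z w : ℂ) : nsq (vec n z w) = ‖z‖ ^ 2 + ‖w‖ ^ 2 := by
  rw [nsq_eq, NN_vec, vec_zero]

lemma nsq_qq : nsq (qq n) = 1 := by
  unfold qq
  rw [nsq_vec']
  simp

lemma Good.g_zero (h : Good n η om s) {x : Fin (n + 2) → ℂ} (hx : x 0 = 0) : gS n s x = 0 := by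
  unfold gS
  have hall : ∀ k, GK k (s k) x = 0 := by
    intro k
    apply GK_zero0 (h.pos k) (h.le1 k)
    have := cc_pos k
    rw [hx, zero_sub, norm_neg, Complex.norm_real, Real.norm_of_nonneg this.le]
    linarith
  simp [hall]

lemma Good.qq_frontier (h : Good n η om s) : qq n ∈ frontier {x | rh n s x < 0} := by
  rw [h.isOpen.frontier_eq]
  constructor
  · rw [Metric.mem_closure_iff]
    intro ε hε
    set r : ℝ := 1 - min ε 1 / 2 with hr
    have hm0 : 0 < min ε 1 := lt_min hε one_pos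
    have hm1 : min ε 1 ≤ 1 := min_le_right _ _
    have hm2 : min ε 1 ≤ ε := min_le_left _ _
    have hr0 : 0 < r := by rw [hr]; linarith
    have hr1 : r < 1 := by rw [hr]; linarith
    refine ⟨r • qq n, ?_, ?_⟩
    · change rh n s (r • qq n) < 0
      unfold rh
      have h1 : (r • qq n) 0 = 0 := by
        rw [Pi.smul_apply]
        unfold qq
        rw [vec_zero, smul_zero]
      rw [h.g_zero h1, nsq_smul, nsq_qq]
      nlinarith
    · rw [dist_eq_norm]
      have : qq n - r • qq n = (1 - r) • qq n := by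
        rw [sub_smul (1 : ℝ) r (qq n), one_smul]
      rw [this, norm_smul, Real.norm_of_nonneg (by linarith)]
      have := norm_le_one (nsq_qq (n := n)).le
      have h3 := norm_nonneg (qq n)
      nlinarith
  · intro hq
    have := h.dom_sub (x := qq n) hq
    rw [nsq_qq] at this
    exact lt_irrefl _ this

lemma ne_qq {x : Fin (n + 2) → ℂ} (hx : nsq x ≤ 1) (hxq : x ≠ qq n) : x 0 ≠ 0 ∨ x 1 ≠ 1 := by
  by_contra hcon
  push Not at hcon
  obtain ⟨h0, h1⟩ := hcon
  apply hxq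
  have h2 : NN x = ‖x 1‖ ^ 2 + ∑ i : Fin n, ‖x i.succ.succ‖ ^ 2 := by
    unfold NN
    rw [Fin.sum_univ_succ]
    rfl
  rw [nsq_eq, h2, h0, h1] at hx
  have h3 : ∑ i : Fin n, ‖x i.succ.succ‖ ^ 2 ≤ 0 := by
    simp at hx ⊢
    linarith
  have h4 : ∀ i : Fin n, x i.succ.succ = 0 := by
    intro i
    have h5 : ‖x i.succ.succ‖ ^ 2 ≤ ∑ i : Fin n, ‖x i.succ.succ‖ ^ 2 :=
      Finset.single_le_sum (f := fun i : Fin n => ‖x i.succ.succ‖ ^ 2)
        (fun _ _ => by positivity) (Finset.mem_univ i)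
    have h6 : ‖x i.succ.succ‖ ^ 2 = 0 := le_antisymm (h5.trans h3) (sq_nonneg _)
    exact norm_eq_zero.1 (pow_eq_zero_iff (two_ne_zero)|>.1 h6)
  funext i
  refine Fin.cases ?_ (fun i => ?_) i
  · rw [h0]; rfl
  · refine Fin.cases ?_ (fun i => ?_) i
    · exact h1
    · rw [h4 i]; rfl

end Pool.Agent.U500.Pt
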