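import Mathlib
import Pool.Agent.U500.Pt.Dom
import Pool.Agent.U500.Cone.Dat

set_option autoImplicit false

/-!
# The corona data
-/

open Metric Set Filter Topology
open scoped ContDiff InnerProductSpace

namespace Pool.Agent.U500.Pt

open Pool.Agent.U500.Inst
open Pool.Agent.U500.Cone (PP PP_nonneg PP_far PP_le le_PP AA w0_facts den_ge AA_le bd bd_nonneg
  bd_sum den_ne isOpen_ball' x01)

variable {n : ℕ} {η : ℝ} {om : ℝ → ℝ} {s : ℕ → ℝ}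

/-! ### functions on the ball of `ℂ²` -/

noncomputable def BP (t : ℝ) (z w : ℂ) : ℂ := √(2 * t) * (z / (1 - √(1 - 2 * t) * w))

lemma BP_le {t : ℝ} (ht : 0 < t) (ht1 : t ≤ 1 / 400) {z w : ℂ} (hw : ‖z‖ ^ 2 + ‖w‖ ^ 2 < 1) :
    ‖BP t z w‖ ≤ 1 := by
  obtain ⟨h1, h2, h3, _⟩ := w0_facts ht ht1
  have h4 := den_ge h1.le w
  have hw1 : ‖w‖ < 1 := by nlinarith [norm_nonneg w, norm_nonneg z]
  have h5 : 0 < 1 - √(1 - 2 * t) * ‖w‖ := by nlinarith [norm_nonneg w]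
  have hs2 : √(2 * t) ^ 2 = 2 * t := Real.sq_sqrt (by linarith)
  have hs0 : 0 ≤ √(2 * t) := Real.sqrt_nonneg _
  have h6 : √(2 * t) * ‖z‖ ≤ ‖1 - (√(1 - 2 * t) : ℂ) * w‖ := by
    refine le_trans ?_ h4
    apply le_of_sq_le_sq _ h5.le
    have h7 : (√(2 * t) * ‖z‖) ^ 2 = 2 * t * ‖z‖ ^ 2 := by rw [mul_pow, hs2]
    have h8 : (1 - √(1 - 2 * t) * ‖w‖) ^ 2 = 2 * t * (1 - ‖w‖ ^ 2) +
        (√(1 - 2 * t) - ‖w‖) ^ 2 := by
      have : (1 - √(1 - 2 * t) * ‖w‖) ^ 2 - (√(1 - 2 * t) - ‖w‖) ^ 2 =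
        (1 - √(1 - 2 * t) ^ 2) * (1 - ‖w‖ ^ 2) := by ring
      rw [h2] at this
      linarith
    rw [h7, h8]
    nlinarith [sq_nonneg (√(1 - 2 * t) - ‖w‖)]
  unfold BP
  rw [norm_mul, Complex.norm_real, Real.norm_of_nonneg hs0, norm_div, ← mul_div_assoc]
  exact div_le_one_of_le₀ h6 (norm_nonneg _)

lemma den_far {t δ : ℝ} (ht : 0 < t) (ht1 : t ≤ 1 / 400) (htδ : 4 * t ≤ δ) {w : ℂ}
    (hw : ‖w‖ ≤ 1) (hf : δ ≤ ‖1 - w‖) : δ / 2 ≤ ‖1 - ((√(1 - 2 * t) : ℝ) : ℂ) * w‖ := by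
  obtain ⟨h1, h2, h3, h4⟩ := w0_facts ht ht1
  have h5 : ‖1 - w‖ ≤ ‖1 - ((√(1 - 2 * t) : ℝ) : ℂ) * w‖ + (1 - √(1 - 2 * t)) * ‖w‖ := by
    have h6 : ‖((1 - √(1 - 2 * t) : ℝ) : ℂ) * w‖ = (1 - √(1 - 2 * t)) * ‖w‖ := by
      rw [norm_mul, Complex.norm_real, Real.norm_of_nonneg (by linarith)]
    rw [← h6]
    have h7 : 1 - w = (1 - ((√(1 - 2 * t) : ℝ) : ℂ) * w) - ((1 - √(1 - 2 * t) : ℝ) : ℂ) * w := by
      push_cast; ring
    calc ‖1 - w‖ = ‖(1 - ((√(1 - 2 * t) : ℝ) : ℂ) * w) - ((1 - √(1 - 2 * t) : ℝ) : ℂ) * w‖ := by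
          rw [← h7]
      _ ≤ _ := norm_sub_le _ _
  have h8 : (1 - √(1 - 2 * t)) * ‖w‖ ≤ 2 * t := by nlinarith [norm_nonneg w]
  linarith

lemma AA_far {t δ : ℝ} (ht : 0 < t) (ht1 : t ≤ 1 / 400) (htδ : 4 * t ≤ δ) {w : ℂ}
    (hw : ‖w‖ ≤ 1) (hf : δ ≤ ‖1 - w‖) : ‖AA t w‖ ≤ 4 * t / δ := by
  have h1 := den_far ht ht1 htδ hw hf
  have hδ : 0 < δ := by linarith
  unfold AA
  rw [norm_div, norm_mul, norm_mul, Complex.norm_real, Real.norm_of_nonneg ht.le,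
    Complex.norm_ofNat]
  calc 2 * t * ‖w‖ / ‖1 - ((√(1 - 2 * t) : ℝ) : ℂ) * w‖ ≤ 2 * t * 1 / (δ / 2) := by gcongr
    _ = 4 * t / δ := by field_simp; ring

lemma BP_far {t δ : ℝ} (ht : 0 < t) (ht1 : t ≤ 1 / 400) (htδ : 4 * t ≤ δ) {z w : ℂ}
    (hz : ‖z‖ ≤ 1) (hw : ‖w‖ ≤ 1) (hf : δ ≤ ‖1 - w‖) : ‖BP t z w‖ ≤ 2 * √(2 * t) / δ := by
  have h1 := den_far ht ht1 htδ hw hf
  have hδ : 0 < δ := by linarith
  have hs0 : 0 ≤ √(2 * t) := Real.sqrt_nonneg _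
  unfold BP
  rw [norm_mul, Complex.norm_real, Real.norm_of_nonneg hs0, norm_div]
  calc √(2 * t) * (‖z‖ / ‖1 - ((√(1 - 2 * t) : ℝ) : ℂ) * w‖) ≤ √(2 * t) * (1 / (δ / 2)) := by
        gcongr
    _ = _ := by field_simp

/-- the main lower bound -/
lemma lower_core {t δ : ℝ} (ht : 0 < t) (ht1 : t ≤ 1 / 400) (hδ : 4 * t ≤ δ)
    (hδ2 : 9 * t ≤ δ ^ 2) {z w : ℂ} (hzw : ‖z‖ ^ 2 + ‖w‖ ^ 2 < 1)
    (hloc : ‖z‖ ^ 2 ≤ t / 4 → ‖1 - w‖ < δ → 4 * t ≤ 1 - ‖w‖ ^ 2) :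
    1 / 10 < ‖((√(1 - 2 * t) : ℝ) - w) / (1 - √(1 - 2 * t) * w)‖ ^ 2 +
      ‖√(2 * t) * (z / (1 - √(1 - 2 * t) * w))‖ ^ 2 := by
  obtain ⟨h0, hw0, hw1, _⟩ := w0_facts ht ht1
  have h2 := mob_id hw0 w
  have hw2 : ‖w‖ ^ 2 < 1 := by nlinarith [sq_nonneg ‖z‖, sq_nonneg ‖w‖]
  have hw2' : ‖w‖ < 1 := by nlinarith [norm_nonneg w]
  have hden : 0 < ‖1 - ((√(1 - 2 * t) : ℝ) : ℂ) * w‖ := den_pos h0 (by nlinarith [norm_nonneg w])
  have h3 : t + (1 - ‖w‖ ^ 2) / 2 ≤ ‖1 - ((√(1 - 2 * t) : ℝ) : ℂ) * w‖ := by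
    have h4 := den_ge h0.le w
    nlinarith [sq_nonneg (√(1 - 2 * t) - ‖w‖)]
  have hsq : √(2 * t) ^ 2 = 2 * t := Real.sq_sqrt (by linarith)
  have e1 : ‖((√(1 - 2 * t) : ℝ) - w) / (1 - √(1 - 2 * t) * w)‖ ^ 2 +
      ‖√(2 * t) * (z / (1 - √(1 - 2 * t) * w))‖ ^ 2 =
      (2 * t * ‖z‖ ^ 2 + ‖((√(1 - 2 * t) : ℝ) : ℂ) - w‖ ^ 2) /
        ‖1 - ((√(1 - 2 * t) : ℝ) : ℂ) * w‖ ^ 2 := by
    rw [norm_div, norm_mul, norm_div, Complex.norm_real, Real.norm_of_nonneg (Real.sqrt_nonneg _),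
      div_pow, mul_pow, hsq, div_pow]
    ring
  rw [e1]
  have hfar : δ ≤ ‖1 - w‖ → δ / 2 ≤ ‖1 - ((√(1 - 2 * t) : ℝ) : ℂ) * w‖ :=
    den_far ht ht1 hδ hw2'.le
  set X := 1 - ‖w‖ ^ 2 with hX
  set d := ‖1 - ((√(1 - 2 * t) : ℝ) : ℂ) * w‖ with hd
  have hX0 : 0 < X := by linarith
  have h5 : (t + X / 2) ^ 2 ≤ d ^ 2 := by gcongr
  rw [lt_div_iff₀ (by positivity)]
  have h11 : 0 ≤ ‖z‖ ^ 2 := by positivity
  have h6 : 2 * t * (X - ‖z‖ ^ 2) ≤ 8 / 9 * d ^ 2 := by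
    by_cases hz : ‖z‖ ^ 2 ≤ t / 4
    · by_cases hf : ‖1 - w‖ < δ
      · refine le_trans ?_ (mul_le_mul_of_nonneg_left h5 (by norm_num : (0 : ℝ) ≤ 8 / 9))
        have h10 := hloc hz hf
        have h12 : 0 ≤ (X - t) * (X - 4 * t) := mul_nonneg (by linarith) (by linarith)
        have h13 : 0 ≤ t * ‖z‖ ^ 2 := mul_nonneg ht.le h11
        have h14 : 2 * t * (X - ‖z‖ ^ 2) = 8 / 9 * (t + X / 2) ^ 2 -
            2 / 9 * ((X - t) * (X - 4 * t)) - 2 * (t * ‖z‖ ^ 2) := by ring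
        rw [h14]
        linarith
      · push Not at hf
        have h7 := hfar hf
        have h8 : (δ / 2) ^ 2 ≤ d ^ 2 := by
          have : 0 < δ / 2 := by linarith
          gcongr
        have hX1 : X ≤ 1 := by have := sq_nonneg ‖w‖; linarith
        have h9 : t * (X - ‖z‖ ^ 2) ≤ t * 1 := by
          apply mul_le_mul_of_nonneg_left _ ht.le
          linarith
        nlinarith
    · refine le_trans ?_ (mul_le_mul_of_nonneg_left h5 (by norm_num : (0 : ℝ) ≤ 8 / 9))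
      push Not at hz
      have h8 : 0 ≤ (5 * t - 2 * X) ^ 2 := sq_nonneg _
      have h9 : 0 ≤ t * (‖z‖ ^ 2 - t / 4) := mul_nonneg ht.le (by linarith)
      have h10 : 2 * t * (X - ‖z‖ ^ 2) = 8 / 9 * (t + X / 2) ^ 2 -
          1 / 18 * (5 * t - 2 * X) ^ 2 - 2 * (t * (‖z‖ ^ 2 - t / 4)) := by ring
      rw [h10]
      linarith
  have h7 : 0 < d ^ 2 := by positivity
  have h8 : ‖((√(1 - 2 * t) : ℝ) : ℂ) - w‖ ^ 2 = d ^ 2 - 2 * t * X := by linarith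
  rw [h8]
  linarith

/-! ### local coordinates -/

noncomputable def zt (k : ℕ) (x : Fin (n + 2) → ℂ) : ℂ := (x 0 - cc k) / (1 - cc k * x 0)

noncomputable def wt (k : ℕ) (x : Fin (n + 2) → ℂ) : ℂ := sb k * x 1 / (1 - cc k * x 0)

lemma cden {k : ℕ} {x : Fin (n + 2) → ℂ} (hx : nsq x ≤ 1) :
    0.99 ≤ ‖1 - (cc k : ℂ) * x 0‖ ∧ ‖1 - (cc k : ℂ) * x 0‖ ≤ 1.01 := by
  have h1 : ‖x 0‖ ≤ 1 := (norm_le_pi_norm x 0).trans (norm_le_one hx)
  have h2 := cc_pos k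
  have h3 := cc_le k
  have h4 : ‖(cc k : ℂ) * x 0‖ ≤ 0.01 := by
    rw [norm_mul, Complex.norm_real, Real.norm_of_nonneg h2.le]
    nlinarith [norm_nonneg (x 0)]
  have h5 := norm_sub_norm_le (1 : ℂ) ((cc k : ℂ) * x 0)
  have h6 := norm_sub_le (1 : ℂ) ((cc k : ℂ) * x 0)
  rw [norm_one] at h5 h6
  constructor <;> linarith

lemma loc_id {k : ℕ} {x : Fin (n + 2) → ℂ} (hx : nsq x ≤ 1) :
    1 - ‖zt k x‖ ^ 2 - ‖wt k x‖ ^ 2 =
      bt k * (1 - ‖x 0‖ ^ 2 - ‖x 1‖ ^ 2) / ‖1 - (cc k : ℂ) * x 0‖ ^ 2 := by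
  have hc : 0 < ‖1 - (cc k : ℂ) * x 0‖ := by linarith [(cden (k := k) hx).1]
  have h1 := mob_id (t := bt k / 2) (w₀ := cc k) (by unfold bt; ring) (x 0)
  rw [norm_sub_rev (cc k : ℂ) (x 0)] at h1
  unfold zt wt
  rw [norm_div, norm_div, norm_mul, Complex.norm_real, Real.norm_of_nonneg (sb_pos k).le, div_pow,
    div_pow, mul_pow, sb_sq]
  set d := ‖1 - (cc k : ℂ) * x 0‖ with hd
  have hd2 : d ^ 2 ≠ 0 := by positivity
  rw [eq_div_iff hd2, sub_mul, sub_mul, one_mul, div_mul_cancel₀ _ hd2, div_mul_cancel₀ _ hd2]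
  linarith

lemma loc_ball {k : ℕ} {x : Fin (n + 2) → ℂ} (hx : nsq x < 1) :
    ‖zt k x‖ ^ 2 + ‖wt k x‖ ^ 2 < 1 := by
  have h1 := loc_id (k := k) hx.le
  have h2 := x01 hx
  have h3 := bt_pos k
  have h4 : 0 < ‖1 - (cc k : ℂ) * x 0‖ := by linarith [(cden (k := k) hx.le).1]
  have h5 : 0 < bt k * (1 - ‖x 0‖ ^ 2 - ‖x 1‖ ^ 2) / ‖1 - (cc k : ℂ) * x 0‖ ^ 2 := by
    have : 0 < 1 - ‖x 0‖ ^ 2 - ‖x 1‖ ^ 2 := by linarith
    positivity
  linarith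

lemma wt_lt {k : ℕ} {x : Fin (n + 2) → ℂ} (hx : nsq x < 1) : ‖wt k x‖ < 1 := by
  have := loc_ball (k := k) hx
  nlinarith [norm_nonneg (wt k x), sq_nonneg ‖zt k x‖]

lemma zt_lt {k : ℕ} {x : Fin (n + 2) → ℂ} (hx : nsq x < 1) : ‖zt k x‖ < 1 := by
  have := loc_ball (k := k) hx
  nlinarith [norm_nonneg (zt k x), sq_nonneg ‖wt k x‖]

/-- `2 Re (1 - ⟨x, p⟩) = |x - p|² + (1 - |x|²)` -/
lemma herm (k : ℕ) (z w : ℂ) : 2 * (1 - (cc k : ℂ) * z - sb k * w).re =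
    ‖z - cc k‖ ^ 2 + ‖w - sb k‖ ^ 2 + (1 - ‖z‖ ^ 2 - ‖w‖ ^ 2) := by
  have h1 := sb_sq k
  unfold bt at h1
  rw [← Complex.normSq_eq_norm_sq, ← Complex.normSq_eq_norm_sq, ← Complex.normSq_eq_norm_sq,
    ← Complex.normSq_eq_norm_sq, Complex.normSq_apply, Complex.normSq_apply,
    Complex.normSq_apply, Complex.normSq_apply]
  simp only [Complex.sub_re, Complex.sub_im, Complex.one_re, Complex.mul_re, Complex.ofReal_re,
    Complex.ofReal_im]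
  linear_combination (-1 : ℝ) * h1

lemma one_sub_wt {k : ℕ} {x : Fin (n + 2) → ℂ} (hx : nsq x ≤ 1) :
    ‖1 - wt k x‖ * ‖1 - (cc k : ℂ) * x 0‖ = ‖1 - (cc k : ℂ) * x 0 - sb k * x 1‖ := by
  have hc : 0 < ‖1 - (cc k : ℂ) * x 0‖ := by linarith [(cden (k := k) hx).1]
  have hc' : 1 - (cc k : ℂ) * x 0 ≠ 0 := norm_pos_iff.1 hc
  rw [← norm_mul]
  unfold wt
  rw [sub_mul, one_mul, div_mul_cancel₀ _ hc']

/-- size of the neighbourhoods -/
noncomputable def dl (k : ℕ) : ℝ := cc k ^ 2 / 1000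

lemma dl_pos (k : ℕ) : 0 < dl k := by have := cc_pos k; unfold dl; positivity

/-- far from the `k`-th point -/
def Fr (k : ℕ) (x : Fin (n + 2) → ℂ) : Prop := dl k ≤ ‖1 - wt k x‖

lemma not_far {k : ℕ} {x : Fin (n + 2) → ℂ} (hx : nsq x ≤ 1) (h : ¬ Fr k x) :
    ‖x 0 - cc k‖ < cc k / 10 ∧ ‖x 1 - sb k‖ ≤ cc k / 4 := by
  unfold Fr at h
  push Not at h
  have hc := cc_pos k
  have hd := dl_pos k
  obtain ⟨c1, c2⟩ := cden (k := k) hx
  have h1 := one_sub_wt (k := k) hx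
  have h2 := herm k (x 0) (x 1)
  have h3 : (1 - (cc k : ℂ) * x 0 - sb k * x 1).re ≤ 1.01 * dl k := by
    refine (Complex.re_le_norm _).trans ?_
    rw [← h1]
    nlinarith [norm_nonneg (1 - wt k x)]
  have h4 : 0 ≤ 1 - ‖x 0‖ ^ 2 - ‖x 1‖ ^ 2 := by
    rw [nsq_eq] at hx
    have := sq1_le x
    linarith
  have h5 : ‖x 0 - cc k‖ ^ 2 + ‖x 1 - sb k‖ ^ 2 ≤ 2.02 * (cc k ^ 2 / 1000) := by
    unfold dl at h3
    linarith
  constructor
  · apply lt_of_pow_lt_pow_left₀ 2 (by positivity)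
    have := sq_nonneg ‖x 1 - sb k‖
    nlinarith
  · apply le_of_sq_le_sq _ (by positivity)
    have := sq_nonneg ‖x 0 - cc k‖
    nlinarith

lemma exists_k0 {x : Fin (n + 2) → ℂ} (hx : nsq x ≤ 1) : ∃ k₀, ∀ k, k ≠ k₀ → Fr k x := by
  by_cases h : ∃ k, ¬ Fr k x
  · obtain ⟨k, hk⟩ := h
    refine ⟨k, fun j hj => ?_⟩
    by_contra hcon
    exact hj (near_unique (not_far hx hcon).1 (not_far hx hk).1)
  · push Not at h
    exact ⟨0, fun k _ => h k⟩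

/-! ### the data -/

noncomputable def Ak (s : ℕ → ℝ) (k : ℕ) (x : Fin (n + 2) → ℂ) : ℂ :=
  AA (s k ^ 2) (wt k x) - AA (s k ^ 2) (sb k)

noncomputable def Bk (s : ℕ → ℝ) (k : ℕ) (x : Fin (n + 2) → ℂ) : ℂ :=
  BP (s k ^ 2) (zt k x) (wt k x) - BP (s k ^ 2) (-cc k) (sb k)

/-- the two generators -/
noncomputable def FF (s : ℕ → ℝ) (j : Fin 2) (x : Fin (n + 2) → ℂ) : ℂ :=
  if j = 0 then 1 - ∑' k, Ak s k x else ∑' k, Bk s k x

lemma Good.t_pos (h : Good n η om s) (k : ℕ) : 0 < s k ^ 2 := pow_pos (h.pos k) 2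

lemma Good.le2 (h : Good n η om s) (k : ℕ) : s k ≤ 1 / 1000 := by
  have h1 := h.le1 k
  have h2 := cc_le k
  linarith

lemma Good.t_le (h : Good n η om s) (k : ℕ) : s k ^ 2 ≤ 1 / 400 := by
  have h1 := h.le2 k
  have h2 := h.pos k
  nlinarith

lemma Good.le3 (h : Good n η om s) (k : ℕ) : 10 * s k ≤ bd k * dl k := by
  have h1 := h.le k
  unfold bd dl
  have h2 : 10 * (cc k ^ 2 / 1000000 * (1 / 2 : ℝ) ^ (k + 1)) =
    1 / 100 * (1 / 2 : ℝ) ^ (k + 1) * (cc k ^ 2 / 1000) := by ring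
  linarith

lemma bd_le (k : ℕ) : bd k ≤ 1 / 200 := by
  unfold bd
  have : (1 / 2 : ℝ) ^ (k + 1) ≤ 1 / 2 := by
    calc (1 / 2 : ℝ) ^ (k + 1) ≤ (1 / 2) ^ 1 :=
          pow_le_pow_of_le_one (by norm_num) (by norm_num) (by omega)
      _ = _ := pow_one _
  linarith

lemma dl_le (k : ℕ) : dl k ≤ 1 / 10000000 := by
  unfold dl
  have h1 := cc_pos k
  have h2 := cc_le k
  nlinarith

lemma Good.le4 (h : Good n η om s) (k : ℕ) : s k ≤ dl k / 1000 := by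
  have h1 := h.le3 k
  have h2 := bd_le k
  have h3 := dl_pos k
  nlinarith

lemma Good.t_dl (h : Good n η om s) (k : ℕ) : 4 * s k ^ 2 ≤ dl k := by
  have h1 := h.le4 k
  have h2 := h.pos k
  have h3 := dl_le k
  nlinarith

lemma Good.t_dl2 (h : Good n η om s) (k : ℕ) : 9 * s k ^ 2 ≤ dl k ^ 2 := by
  have h1 := h.le4 k
  have h2 := h.pos k
  have h3 := dl_pos k
  nlinarith

lemma Good.sqrt_le (h : Good n η om s) (k : ℕ) : √(2 * s k ^ 2) ≤ 3 / 2 * s k := by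
  have h2 := h.pos k
  apply Real.sqrt_le_iff.2
  constructor
  · positivity
  · nlinarith

/-- `AA` at far points -/
lemma Good.AA_far (h : Good n η om s) (k : ℕ) {w : ℂ} (hw : ‖w‖ ≤ 1) (hf : dl k ≤ ‖1 - w‖) :
    ‖AA (s k ^ 2) w‖ ≤ bd k / 2 := by
  refine (Pool.Agent.U500.Pt.AA_far (h.t_pos k) (h.t_le k) (h.t_dl k) hw hf).trans ?_
  have h1 := h.le3 k
  have h2 := h.pos k
  have h3 := dl_pos k
  have h4 := h.le2 k
  rw [div_le_iff₀ h3]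
  nlinarith

lemma Good.BP_far (h : Good n η om s) (k : ℕ) {z w : ℂ} (hz : ‖z‖ ≤ 1) (hw : ‖w‖ ≤ 1)
    (hf : dl k ≤ ‖1 - w‖) : ‖BP (s k ^ 2) z w‖ ≤ bd k / 2 := by
  refine (Pool.Agent.U500.Pt.BP_far (h.t_pos k) (h.t_le k) (h.t_dl k) hz hw hf).trans ?_
  have h1 := h.le3 k
  have h2 := h.pos k
  have h3 := dl_pos k
  have h4 := h.sqrt_le k
  rw [div_le_iff₀ h3]
  nlinarith

/-- the point `q` is far -/
lemma q_far (k : ℕ) : dl k ≤ ‖(1 : ℂ) - (sb k : ℂ)‖ := by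
  rw [← Complex.ofReal_one, ← Complex.ofReal_sub, Complex.norm_real,
    Real.norm_of_nonneg (by linarith [sb_lt k])]
  have h1 := sb_sq k
  have h2 := sb_lt k
  have h3 := sb_pos k
  unfold bt at h1
  unfold dl
  nlinarith [cc_pos k]

lemma sb_norm (k : ℕ) : ‖(sb k : ℂ)‖ ≤ 1 := by
  rw [Complex.norm_real, Real.norm_of_nonneg (sb_pos k).le]
  exact (sb_lt k).le

lemma cc_norm (k : ℕ) : ‖(-cc k : ℂ)‖ ≤ 1 := by
  rw [norm_neg, Complex.norm_real, Real.norm_of_nonneg (cc_pos k).le]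
  linarith [cc_le k]

lemma Good.AA_q (h : Good n η om s) (k : ℕ) : ‖AA (s k ^ 2) (sb k)‖ ≤ bd k / 2 :=
  h.AA_far k (sb_norm k) (q_far k)

lemma Good.BP_q (h : Good n η om s) (k : ℕ) : ‖BP (s k ^ 2) (-cc k) (sb k)‖ ≤ bd k / 2 :=
  h.BP_far k (cc_norm k) (sb_norm k) (q_far k)

lemma Good.Ak_far (h : Good n η om s) {k : ℕ} {x : Fin (n + 2) → ℂ} (hx : nsq x < 1)
    (hf : Fr k x) : ‖Ak s k x‖ ≤ bd k := by
  unfold Ak
  refine (norm_sub_le _ _).trans ?_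
  have h1 := h.AA_far k (wt_lt hx).le hf
  have h2 := h.AA_q k
  linarith

lemma Good.Bk_far (h : Good n η om s) {k : ℕ} {x : Fin (n + 2) → ℂ} (hx : nsq x < 1)
    (hf : Fr k x) : ‖Bk s k x‖ ≤ bd k := by
  unfold Bk
  refine (norm_sub_le _ _).trans ?_
  have h1 := h.BP_far k (zt_lt (k := k) hx).le (wt_lt hx).le hf
  have h2 := h.BP_q k
  linarith

lemma Good.Ak_le (h : Good n η om s) {k : ℕ} {x : Fin (n + 2) → ℂ} (hx : nsq x < 1) :
    ‖Ak s k x‖ ≤ 3 := by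
  unfold Ak
  refine (norm_sub_le _ _).trans ?_
  have h1 := AA_le (h.t_pos k) (h.t_le k) (wt_lt (k := k) hx)
  have h2 := h.AA_q k
  have h3 := bd_le k
  linarith

lemma Good.Bk_le (h : Good n η om s) {k : ℕ} {x : Fin (n + 2) → ℂ} (hx : nsq x < 1) :
    ‖Bk s k x‖ ≤ 3 := by
  unfold Bk
  refine (norm_sub_le _ _).trans ?_
  have h1 := BP_le (h.t_pos k) (h.t_le k) (loc_ball (k := k) hx)
  have h2 := h.BP_q k
  have h3 := bd_le k
  linarith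

lemma summable_dl : Summable dl := by
  have h1 : Summable fun k : ℕ => (1 / 10000 : ℝ) ^ k :=
    summable_geometric_of_lt_one (by norm_num) (by norm_num)
  refine (h1.mul_left (1 / 10000000)).congr fun k => ?_
  unfold dl cc
  rw [← pow_mul, mul_comm (k + 1) 2, pow_mul, pow_succ]
  norm_num
  ring

/-- uniform bound on compact sets -/
lemma unif_bound {G : ℕ → (Fin (n + 2) → ℂ) → ℂ} (h2 : ∀ k x, nsq x < 1 → ‖G k x‖ ≤ 3)
    (hf : ∀ k x, nsq x < 1 → Fr k x → ‖G k x‖ ≤ bd k) {c : ℝ} (hc : 0 < c) (k : ℕ)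
    (x : Fin (n + 2) → ℂ) (hx : nsq x < 1) (hxc : c ≤ 1 - nsq x) :
    ‖G k x‖ ≤ bd k + 9 / c * dl k := by
  have hd := dl_pos k
  have hb := bd_nonneg k
  by_cases h : Fr k x
  · have h3 := hf k x hx h
    have : 0 ≤ 9 / c * dl k := by positivity
    linarith
  · unfold Fr at h
    push Not at h
    have h1 := one_sub_wt (k := k) hx.le
    have h3 := herm k (x 0) (x 1)
    obtain ⟨c1, c2⟩ := cden (k := k) hx.le
    have h4 : c / 2 ≤ (1 - (cc k : ℂ) * x 0 - sb k * x 1).re := by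
      have h5 := sq_nonneg ‖x 0 - cc k‖
      have h6 := sq_nonneg ‖x 1 - sb k‖
      rw [nsq_eq] at hxc
      have h7 := sq1_le x
      linarith
    have h5 : c / 2 ≤ 1.01 * dl k := by
      refine (h4.trans (Complex.re_le_norm _)).trans ?_
      rw [← h1]
      nlinarith [norm_nonneg (1 - wt k x)]
    have h6 : 3 ≤ 9 / c * dl k := by
      rw [div_mul_eq_mul_div, le_div_iff₀ hc]
      linarith
    have h7 := h2 k x hx
    linarith

/-- the series are holomorphic -/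
lemma series_diff {G : ℕ → (Fin (n + 2) → ℂ) → ℂ} (h2 : ∀ k x, nsq x < 1 → ‖G k x‖ ≤ 3)
    (hf : ∀ k x, nsq x < 1 → Fr k x → ‖G k x‖ ≤ bd k)
    (hd : ∀ k, DifferentiableOn ℂ (G k) {x | nsq x < 1}) :
    DifferentiableOn ℂ (fun x => ∑' k, G k x) {x | nsq x < 1} := by
  intro x hx
  have hx' : nsq x < 1 := hx
  set c := (1 - nsq x) / 2 with hc
  have hc0 : 0 < c := by linarith
  set O : Set (Fin (n + 2) → ℂ) := {y | nsq y < 1} ∩ {y | c < 1 - nsq y} with hO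
  have hcont : Continuous (fun x : Fin (n + 2) → ℂ => nsq x) := by
    unfold nsq
    fun_prop
  have hOo : IsOpen O := by
    apply isOpen_ball'.inter
    exact isOpen_lt continuous_const (continuous_const.sub hcont)
  have hxO : x ∈ O := ⟨hx', by change c < 1 - nsq x; linarith⟩
  have key := Pool.Agent.HP.nof_differentiableOn_tsum (f := G)
    (u := fun k => bd k + 9 / c * dl k) (bd_sum.summable.add (summable_dl.mul_left _)) hOo
    (fun k => (hd k).mono inter_subset_left)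
    (fun k y hy => unif_bound h2 hf hc0 k y hy.1 (le_of_lt hy.2))
  exact (key.differentiableAt (hOo.mem_nhds hxO)).differentiableWithinAt

lemma cne {k : ℕ} {x : Fin (n + 2) → ℂ} (hx : nsq x ≤ 1) : 1 - (cc k : ℂ) * x 0 ≠ 0 :=
  norm_pos_iff.1 (by linarith [(cden (k := k) hx).1])

lemma diff_zt (k : ℕ) : DifferentiableOn ℂ (zt (n := n) k) {x | nsq x < 1} := by
  intro x hx
  have hc : 1 - (cc k : ℂ) * x 0 ≠ 0 := cne (le_of_lt hx)
  have h1 : DifferentiableAt ℂ (fun x : Fin (n + 2) → ℂ => 1 - (cc k : ℂ) * x 0) x := by fun_prop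
  apply DifferentiableAt.differentiableWithinAt
  unfold zt
  simp only [div_eq_mul_inv]
  exact DifferentiableAt.fun_mul (by fun_prop) (h1.inv hc)

lemma diff_wt (k : ℕ) : DifferentiableOn ℂ (wt (n := n) k) {x | nsq x < 1} := by
  intro x hx
  have hc : 1 - (cc k : ℂ) * x 0 ≠ 0 := cne (le_of_lt hx)
  have h1 : DifferentiableAt ℂ (fun x : Fin (n + 2) → ℂ => 1 - (cc k : ℂ) * x 0) x := by fun_prop
  apply DifferentiableAt.differentiableWithinAt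
  unfold wt
  simp only [div_eq_mul_inv]
  exact DifferentiableAt.fun_mul (by fun_prop) (h1.inv hc)

lemma Good.diff_Ak (h : Good n η om s) (k : ℕ) :
    DifferentiableOn ℂ (Ak (n := n) s k) {x | nsq x < 1} := by
  intro x hx
  have h1 := (diff_wt (n := n) k).differentiableAt (isOpen_ball'.mem_nhds hx)
  have h2 := den_ne (h.t_pos k) (h.t_le k) (wt_lt (k := k) hx)
  have h3 : DifferentiableAt ℂ (fun x : Fin (n + 2) → ℂ =>
      1 - ((√(1 - 2 * s k ^ 2) : ℝ) : ℂ) * wt k x) x := (h1.const_mul _).const_sub 1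
  apply DifferentiableAt.differentiableWithinAt
  unfold Ak AA
  simp only [div_eq_mul_inv]
  exact (DifferentiableAt.fun_mul (h1.const_mul _) (h3.inv h2)).sub_const _

lemma Good.diff_Bk (h : Good n η om s) (k : ℕ) :
    DifferentiableOn ℂ (Bk (n := n) s k) {x | nsq x < 1} := by
  intro x hx
  have h1 := (diff_wt (n := n) k).differentiableAt (isOpen_ball'.mem_nhds hx)
  have h0 := (diff_zt (n := n) k).differentiableAt (isOpen_ball'.mem_nhds hx)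
  have h2 := den_ne (h.t_pos k) (h.t_le k) (wt_lt (k := k) hx)
  have h3 : DifferentiableAt ℂ (fun x : Fin (n + 2) → ℂ =>
      1 - ((√(1 - 2 * s k ^ 2) : ℝ) : ℂ) * wt k x) x := (h1.const_mul _).const_sub 1
  apply DifferentiableAt.differentiableWithinAt
  unfold Bk BP
  simp only [div_eq_mul_inv]
  exact ((DifferentiableAt.fun_mul h0 (h3.inv h2)).const_mul _).sub_const _

lemma Good.diff_FF (h : Good n η om s) (j : Fin 2) :
    DifferentiableOn ℂ (FF (n := n) s j) {x | nsq x < 1} := by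
  unfold FF
  by_cases hj : j = 0
  · simp only [hj, if_true]
    exact (series_diff (fun k x hx => h.Ak_le hx) (fun k x hx hf => h.Ak_far hx hf)
      h.diff_Ak).const_sub 1
  · simp only [hj, if_false]
    exact series_diff (fun k x hx => h.Bk_le hx) (fun k x hx hf => h.Bk_far hx hf) h.diff_Bk

/-- splitting off one term -/
lemma split_off {G : ℕ → (Fin (n + 2) → ℂ) → ℂ}
    (hf : ∀ k x, nsq x < 1 → Fr k x → ‖G k x‖ ≤ bd k) {x : Fin (n + 2) → ℂ} (hx : nsq x < 1)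
    {k₀ : ℕ} (hk : ∀ k, k ≠ k₀ → Fr k x) :
    (∑' k, G k x = G k₀ x + ∑' k, if k = k₀ then 0 else G k x) ∧
      ‖∑' k, if k = k₀ then 0 else G k x‖ ≤ 1 / 100 := by
  have hb : ∀ k, ‖if k = k₀ then 0 else G k x‖ ≤ bd k := by
    intro k
    by_cases h : k = k₀
    · rw [if_pos h, norm_zero]; exact bd_nonneg k
    · rw [if_neg h]; exact hf k x hx (hk k h)
  have hsum : Summable fun k => G k x := by
    have h3 : Summable fun k => if k = k₀ then 0 else G k x :=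
      Summable.of_norm_bounded bd_sum.summable hb
    have h4 : Summable fun k => if k = k₀ then G k x else 0 :=
      (hasSum_ite_eq k₀ (G k₀ x)).summable.congr fun k => by
        by_cases h : k = k₀
        · simp [h]
        · simp [h]
    refine (h3.add h4).congr fun k => ?_
    by_cases h : k = k₀
    · simp [h]
    · simp [h]
  exact ⟨hsum.tsum_eq_add_tsum_ite k₀, tsum_of_norm_bounded bd_sum hb⟩

lemma Good.FF_le (h : Good n η om s) (j : Fin 2) {x : Fin (n + 2) → ℂ} (hx : nsq x < 1) :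
    ‖FF s j x‖ ≤ 4 := by
  obtain ⟨k₀, hk⟩ := exists_k0 hx.le
  have hb := bd_le k₀
  unfold FF
  by_cases hj : j = 0
  · simp only [hj, if_true]
    obtain ⟨h1, h2⟩ := split_off (fun k x hx hf => h.Ak_far hx hf) hx hk
    rw [h1]
    have h3 : ‖Ak s k₀ x‖ ≤ 2 + 1 / 200 := by
      unfold Ak
      refine (norm_sub_le _ _).trans ?_
      have h1 := AA_le (h.t_pos k₀) (h.t_le k₀) (wt_lt (k := k₀) hx)
      have h2 := h.AA_q k₀
      linarith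
    calc _ ≤ ‖(1 : ℂ)‖ + ‖Ak s k₀ x + ∑' k, if k = k₀ then 0 else Ak s k x‖ := norm_sub_le _ _
      _ ≤ 1 + (‖Ak s k₀ x‖ + ‖∑' k, if k = k₀ then 0 else Ak s k x‖) := by
          rw [norm_one]; gcongr; exact norm_add_le _ _
      _ ≤ 4 := by linarith
  · simp only [hj, if_false]
    obtain ⟨h1, h2⟩ := split_off (fun k x hx hf => h.Bk_far hx hf) hx hk
    rw [h1]
    have h3 := h.Bk_le (k := k₀) hx
    calc _ ≤ ‖Bk s k₀ x‖ + ‖∑' k, if k = k₀ then 0 else Bk s k x‖ := norm_add_le _ _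
      _ ≤ 4 := by linarith

end Pool.Agent.U500.Pt
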