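import Mathlib
import Pool.Agent.U500.Pt.Dat

set_option autoImplicit false

/-!
# Lower bound of the data on the domain; values at the points `p_k`
-/

open Metric Set Filter Topology
open scoped ContDiff InnerProductSpace

namespace Pool.Agent.U500.Pt

open Pool.Agent.U500.Inst
open Pool.Agent.U500.Cone (PP PP_nonneg PP_far PP_le le_PP AA w0_facts den_ge AA_le bd bd_nonneg
  bd_sum den_ne isOpen_ball' x01)

variable {n : ℕ} {η : ℝ} {om : ℝ → ℝ} {s : ℕ → ℝ}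

/-- the bump is large near the centre -/
lemma Good.GK_large (h : Good n η om s) {k : ℕ} {x : Fin (n + 2) → ℂ} (hx : nsq x < 1)
    (hz : ‖zt k x‖ ^ 2 ≤ s k ^ 2 / 4) (hf : ‖1 - wt k x‖ < dl k) :
    5.2 * s k ^ 2 ≤ GK k (s k) x := by
  have hs := h.pos k
  have hc := cne (k := k) hx.le
  obtain ⟨c1, c2⟩ := cden (k := k) hx.le
  have h1 : ‖zt k x‖ ≤ s k / 2 := by
    apply le_of_sq_le_sq _ (by positivity)
    rw [div_pow]
    linarith
  have h2 : x 0 - cc k = zt k x * (1 - cc k * x 0) := by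
    unfold zt
    rw [div_mul_cancel₀ _ hc]
  have h3 : ‖x 0 - cc k‖ ≤ 0.505 * s k := by
    rw [h2, norm_mul]
    calc ‖zt k x‖ * ‖1 - (cc k : ℂ) * x 0‖ ≤ s k / 2 * 1.01 := by gcongr
      _ = _ := by ring
  have hb := bt_ge k
  have hr : 0 < s k * bt k := mul_pos hs (bt_pos k)
  have h4 : 2.6 ≤ PP (k + 1) ((x 0 - cc k) / ((s k * bt k : ℝ) : ℂ)) := by
    apply le_PP (Nat.succ_pos k)
    rw [norm_div, Complex.norm_real, Real.norm_of_nonneg hr.le, div_le_iff₀ hr]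
    nlinarith
  rw [GK_eq, cut_one (not_far hx.le (not_le.2 hf)).2, mul_one]
  nlinarith [sq_nonneg (s k)]

lemma final_num {a b c d : ℝ} (h : 1 / 10 < a ^ 2 + b ^ 2) (ha : 0 ≤ a) (hb : 0 ≤ b)
    (hc : a - 0.018 ≤ c) (hd : b - 0.018 ≤ d) : 1 / 25 < c ^ 2 + d ^ 2 := by
  by_cases h1 : 0.2236 ≤ a
  · nlinarith [sq_nonneg d]
  · push Not at h1
    have h2 : 0.2236 ≤ b := by
      by_contra hcon
      push Not at hcon
      nlinarith
    nlinarith [sq_nonneg c]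

/-- lower bound of the data on the domain -/
lemma Good.lower (h : Good n η om s) {x : Fin (n + 2) → ℂ} (hx : rh n s x < 0) :
    1 / 25 < ∑ j, ‖FF s j x‖ ^ 2 := by
  have hxb : nsq x < 1 := h.dom_sub hx
  obtain ⟨k, hk⟩ := exists_k0 hxb.le
  obtain ⟨w1, w2, w3, w4⟩ := w0_facts (h.t_pos k) (h.t_le k)
  have hden := den_ne (h.t_pos k) (h.t_le k) (wt_lt (k := k) hxb)
  have h1 := lower_core (t := s k ^ 2) (δ := dl k) (h.t_pos k) (h.t_le k) (h.t_dl k) (h.t_dl2 k)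
    (z := zt k x) (w := wt k x) (loc_ball hxb) (by
      intro hz hf
      have g1 := h.GK_large hxb hz hf
      have g2 := h.GK_le_g k x
      have g3 : nsq x - 1 + gS n s x < 0 := hx
      have g4 := loc_id (k := k) hxb.le
      have g5 : 5.2 * s k ^ 2 ≤ 1 - ‖x 0‖ ^ 2 - ‖x 1‖ ^ 2 := by
        have := sq1_le x
        rw [nsq_eq] at g3
        linarith
      obtain ⟨c1, c2⟩ := cden (k := k) hxb.le
      have hb := bt_ge k
      have ht := h.t_pos k
      have g6 : 4 * s k ^ 2 ≤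
          bt k * (1 - ‖x 0‖ ^ 2 - ‖x 1‖ ^ 2) / ‖1 - (cc k : ℂ) * x 0‖ ^ 2 := by
        rw [le_div_iff₀ (by positivity)]
        have g7 : ‖1 - (cc k : ℂ) * x 0‖ ^ 2 ≤ 1.03 := by nlinarith
        have g8 : 0.9999 * (5.2 * s k ^ 2) ≤ bt k * (1 - ‖x 0‖ ^ 2 - ‖x 1‖ ^ 2) := by gcongr
        nlinarith
      have g9 := sq_nonneg ‖zt k x‖
      linarith)
  obtain ⟨a1, a2⟩ := split_off (fun k x hx hf => h.Ak_far hx hf) hxb hk
  obtain ⟨b1, b2⟩ := split_off (fun k x hx hf => h.Bk_far hx hf) hxb hk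
  set SA := ∑' j, if j = k then 0 else Ak s j x with hSA
  set SB := ∑' j, if j = k then 0 else Bk s j x with hSB
  set w₀ := √(1 - 2 * s k ^ 2) with hw0
  set G := ((w₀ : ℂ) - wt k x) / (1 - w₀ * wt k x) with hG
  set H := (√(2 * s k ^ 2) : ℂ) * (zt k x / (1 - w₀ * wt k x)) with hH
  have hbd := bd_le k
  have hA := h.AA_q k
  have hB := h.BP_q k
  have hs1 := h.le2 k
  have hs0 := h.pos k
  have e0 : FF s 0 x = G + (((1 - w₀ : ℝ) : ℂ) + AA (s k ^ 2) (sb k) - SA) := by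
    unfold FF
    simp only [if_true]
    rw [a1]
    have : Ak s k x = 1 - (G + ((1 - w₀ : ℝ) : ℂ)) - AA (s k ^ 2) (sb k) := by
      unfold Ak
      congr 1
      unfold AA
      rw [hG, ← hw0]
      have h5 : (w₀ : ℂ) ^ 2 = 1 - 2 * (s k ^ 2 : ℝ) := by
        rw [← Complex.ofReal_pow, w2]; push_cast; ring
      push_cast at h5 ⊢
      have h6 : ∀ X Y : ℂ, X / (1 - (w₀ : ℂ) * wt k x) +
          (Y / (1 - (w₀ : ℂ) * wt k x) + (1 - (w₀ : ℂ))) =
          (X + Y + (1 - (w₀ : ℂ)) * (1 - (w₀ : ℂ) * wt k x)) / (1 - (w₀ : ℂ) * wt k x) := by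
        intro X Y
        rw [add_div, add_div, mul_div_cancel_right₀ _ hden]
        ring
      rw [eq_sub_iff_add_eq, h6, div_eq_one_iff_eq hden]
      linear_combination (wt k x) * h5
    rw [this]
    ring
  have e1 : FF s 1 x = H + (-BP (s k ^ 2) (-cc k) (sb k) + SB) := by
    unfold FF
    simp only [one_ne_zero, if_false]
    rw [b1]
    have : Bk s k x = H - BP (s k ^ 2) (-cc k) (sb k) := by
      unfold Bk
      congr 1
    rw [this]
    ring
  rw [Fin.sum_univ_two]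
  apply final_num h1 (norm_nonneg _) (norm_nonneg _)
  · rw [e0]
    have c0 : ‖((1 - w₀ : ℝ) : ℂ)‖ ≤ 0.001 := by
      rw [Complex.norm_real, Real.norm_of_nonneg (by linarith : 0 ≤ 1 - w₀)]
      nlinarith
    have c1 : ‖((1 - w₀ : ℝ) : ℂ) + AA (s k ^ 2) (sb k) - SA‖ ≤ 0.018 := by
      refine (norm_sub_le _ _).trans ?_
      have := norm_add_le ((1 - w₀ : ℝ) : ℂ) (AA (s k ^ 2) (sb k))
      linarith
    have c2 : ‖G‖ ≤ ‖G + (((1 - w₀ : ℝ) : ℂ) + AA (s k ^ 2) (sb k) - SA)‖ +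
        ‖((1 - w₀ : ℝ) : ℂ) + AA (s k ^ 2) (sb k) - SA‖ := by
      calc ‖G‖ = ‖(G + (((1 - w₀ : ℝ) : ℂ) + AA (s k ^ 2) (sb k) - SA)) -
            (((1 - w₀ : ℝ) : ℂ) + AA (s k ^ 2) (sb k) - SA)‖ := by congr 1; ring
        _ ≤ _ := norm_sub_le _ _
    have c3 : ‖G‖ - 0.018 ≤ ‖G + (((1 - w₀ : ℝ) : ℂ) + AA (s k ^ 2) (sb k) - SA)‖ := by linarith
    exact c3
  · rw [e1]
    have c1 : ‖-BP (s k ^ 2) (-cc k) (sb k) + SB‖ ≤ 0.018 := by
      refine (norm_add_le _ _).trans ?_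
      rw [norm_neg]
      linarith
    have c2 : ‖H‖ ≤ ‖H + (-BP (s k ^ 2) (-cc k) (sb k) + SB)‖ +
        ‖-BP (s k ^ 2) (-cc k) (sb k) + SB‖ := by
      calc ‖H‖ = ‖(H + (-BP (s k ^ 2) (-cc k) (sb k) + SB)) -
            (-BP (s k ^ 2) (-cc k) (sb k) + SB)‖ := by congr 1; ring
        _ ≤ _ := norm_sub_le _ _
    have c3 : ‖H‖ - 0.018 ≤ ‖H + (-BP (s k ^ 2) (-cc k) (sb k) + SB)‖ := by linarith
    exact c3

/-! ### the points `p_k` -/

/-- the chart at the `k`-th point -/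
noncomputable def Phi (n k : ℕ) (ξ w : ℂ) : Fin (n + 2) → ℂ :=
  vec n (cc k + bt k * ξ) (sb k * (1 - cc k * ξ) * w)

noncomputable def pk (n : ℕ) (s : ℕ → ℝ) (k : ℕ) : Fin (n + 2) → ℂ :=
  Phi n k 0 (√(1 - 2 * s k ^ 2) : ℝ)

/-- `1 - |z|²` in the chart -/
lemma chart_id (k : ℕ) (ξ : ℂ) : 1 - ‖(cc k : ℂ) + bt k * ξ‖ ^ 2 =
    bt k * (‖1 - (cc k : ℂ) * ξ‖ ^ 2 - ‖ξ‖ ^ 2) := by
  unfold bt
  rw [← Complex.normSq_eq_norm_sq, ← Complex.normSq_eq_norm_sq, ← Complex.normSq_eq_norm_sq,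
    Complex.normSq_apply, Complex.normSq_apply, Complex.normSq_apply]
  simp only [Complex.add_re, Complex.add_im, Complex.sub_re, Complex.sub_im, Complex.one_re,
    Complex.one_im, Complex.mul_re, Complex.mul_im, Complex.ofReal_re, Complex.ofReal_im]
  ring

lemma Phi_zero (k : ℕ) (ξ w : ℂ) : Phi n k ξ w 0 = cc k + bt k * ξ := rfl

lemma Phi_one (k : ℕ) (ξ w : ℂ) : Phi n k ξ w 1 = sb k * (1 - cc k * ξ) * w := rfl

lemma nsq_chart (k : ℕ) (ξ w : ℂ) : nsq (Phi n k ξ w) - 1 =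
    bt k * (‖1 - (cc k : ℂ) * ξ‖ ^ 2 * ‖w‖ ^ 2 - (‖1 - (cc k : ℂ) * ξ‖ ^ 2 - ‖ξ‖ ^ 2)) := by
  unfold Phi
  rw [nsq_vec']
  have h1 := chart_id k ξ
  have h2 : ‖(sb k : ℂ) * (1 - cc k * ξ) * w‖ ^ 2 =
      bt k * (‖1 - (cc k : ℂ) * ξ‖ ^ 2 * ‖w‖ ^ 2) := by
    rw [norm_mul, norm_mul, Complex.norm_real, Real.norm_of_nonneg (sb_pos k).le, mul_pow,
      mul_pow, sb_sq]
    ring
  rw [h2]
  linear_combination (-1 : ℝ) * h1

lemma nsq_Phi0 (k : ℕ) {w : ℂ} (hw : ‖w‖ < 1) : nsq (Phi n k 0 w) < 1 := by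
  have h1 := nsq_chart (n := n) k 0 w
  simp only [mul_zero, sub_zero, norm_one, one_pow, norm_zero, ne_eq, OfNat.ofNat_ne_zero,
    not_false_eq_true, zero_pow, one_mul] at h1
  have := bt_pos k
  have : ‖w‖ ^ 2 < 1 := by nlinarith [norm_nonneg w]
  nlinarith

lemma Good.pk_ball (h : Good n η om s) (k : ℕ) : nsq (pk n s k) < 1 := by
  apply nsq_Phi0
  obtain ⟨w1, w2, w3, w4⟩ := w0_facts (h.t_pos k) (h.t_le k)
  rw [Complex.norm_real, Real.norm_of_nonneg w1.le]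
  exact w3

lemma pk_zero (s : ℕ → ℝ) (k : ℕ) : pk n s k 0 = cc k := by
  unfold pk
  rw [Phi_zero, mul_zero, add_zero]

lemma pk_one (s : ℕ → ℝ) (k : ℕ) : pk n s k 1 = sb k * (√(1 - 2 * s k ^ 2) : ℝ) := by
  unfold pk
  rw [Phi_one, mul_zero, sub_zero, mul_one]

lemma Good.pk_far (h : Good n η om s) {j k : ℕ} (hjk : j ≠ k) : Fr j (pk n s k) := by
  by_contra hcon
  have h1 := (not_far (h.pk_ball k).le hcon).1
  apply hjk
  apply near_unique h1
  rw [pk_zero, sub_self, norm_zero]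
  have := cc_pos k
  positivity

lemma zt_pk (s : ℕ → ℝ) (k : ℕ) : zt k (pk n s k) = 0 := by
  unfold zt
  rw [pk_zero, sub_self, zero_div]

lemma wt_pk (s : ℕ → ℝ) (k : ℕ) : wt k (pk n s k) = (√(1 - 2 * s k ^ 2) : ℝ) := by
  unfold wt
  rw [pk_zero, pk_one]
  have h1 : 1 - (cc k : ℂ) * cc k = bt k := by unfold bt; push_cast; ring
  have h2 : (sb k : ℂ) * sb k = bt k := by
    rw [← Complex.ofReal_mul, ← sq, sb_sq]
  have h3 : (bt k : ℂ) ≠ 0 := by exact_mod_cast (bt_pos k).ne'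
  rw [h1, ← mul_assoc, h2, mul_div_cancel_left₀ _ h3]

lemma tend_cc : Tendsto cc atTop (𝓝 0) := by
  unfold cc
  exact (tendsto_pow_atTop_nhds_zero_of_lt_one (by norm_num) (by norm_num)).comp
    (tendsto_add_atTop_nat 1)

lemma tend_ccC : Tendsto (fun k => (cc k : ℂ)) atTop (𝓝 0) := by
  have h2 := (Complex.continuous_ofReal.tendsto 0).comp tend_cc
  rwa [Complex.ofReal_zero] at h2

lemma Good.tend_s2 (h : Good n η om s) : Tendsto (fun k => s k ^ 2) atTop (𝓝 0) := by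
  refine squeeze_zero (fun k => sq_nonneg _) (fun k => ?_) tend_cc
  have h1 := h.le1 k
  have h2 := h.pos k
  have h3 := h.le2 k
  nlinarith [cc_pos k]

lemma Good.tend_pk1 (h : Good n η om s) : Tendsto (fun k => pk n s k 1) atTop (𝓝 1) := by
  have h1 : Tendsto (fun k => √(1 - cc k ^ 2) * √(1 - 2 * s k ^ 2)) atTop
      (𝓝 (√(1 - 0 ^ 2) * √(1 - 2 * 0))) :=
    ((Real.continuous_sqrt.tendsto _).comp ((tend_cc.pow 2).const_sub 1)).mul
      ((Real.continuous_sqrt.tendsto _).comp ((h.tend_s2.const_mul 2).const_sub 1))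
  have h2 := (Complex.continuous_ofReal.tendsto _).comp h1
  have h3 : ((√(1 - 0 ^ 2) * √(1 - 2 * 0) : ℝ) : ℂ) = 1 := by norm_num
  rw [h3] at h2
  refine h2.congr fun k => ?_
  rw [pk_one]
  simp only [Function.comp]
  unfold sb bt
  push_cast
  rfl

lemma tend_den (s : ℕ → ℝ) (j : ℕ) :
    Tendsto (fun k => 1 - (cc j : ℂ) * pk n s k 0) atTop (𝓝 1) := by
  have h1 := (tend_ccC.const_mul (cc j : ℂ)).const_sub 1
  rw [mul_zero, sub_zero] at h1
  refine h1.congr fun k => ?_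
  rw [pk_zero]

lemma tend_zt (s : ℕ → ℝ) (j : ℕ) : Tendsto (fun k => zt j (pk n s k)) atTop (𝓝 (-cc j)) := by
  have h1 := (tend_ccC.sub_const (cc j : ℂ)).div (tend_den (n := n) s j) one_ne_zero
  rw [div_one, zero_sub] at h1
  refine h1.congr fun k => ?_
  simp only [Pi.div_apply]
  unfold zt
  rw [pk_zero]

lemma Good.tend_wt (h : Good n η om s) (j : ℕ) :
    Tendsto (fun k => wt j (pk n s k)) atTop (𝓝 (sb j)) := by
  have h1 := (h.tend_pk1.const_mul (sb j : ℂ)).div (tend_den (n := n) s j) one_ne_zero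
  rw [div_one, mul_one] at h1
  exact h1

lemma Good.den_sb (h : Good n η om s) (j : ℕ) :
    1 - ((√(1 - 2 * s j ^ 2) : ℝ) : ℂ) * sb j ≠ 0 := by
  apply den_ne (h.t_pos j) (h.t_le j)
  rw [Complex.norm_real, Real.norm_of_nonneg (sb_pos j).le]
  exact sb_lt j

lemma Good.tend_Ak (h : Good n η om s) (j : ℕ) :
    Tendsto (fun k => Ak s j (pk n s k)) atTop (𝓝 0) := by
  have h1 := h.tend_wt j
  have h2 : Tendsto (fun k => AA (s j ^ 2) (wt j (pk n s k))) atTop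
      (𝓝 (AA (s j ^ 2) (sb j))) := by
    unfold AA
    exact (h1.const_mul _).div ((h1.const_mul _).const_sub 1) (h.den_sb j)
  have h3 := h2.sub_const (AA (s j ^ 2) (sb j))
  rw [sub_self] at h3
  exact h3

lemma Good.tend_Bk (h : Good n η om s) (j : ℕ) :
    Tendsto (fun k => Bk s j (pk n s k)) atTop (𝓝 0) := by
  have h1 := h.tend_wt j
  have h0 := tend_zt (n := n) s j
  have h2 : Tendsto (fun k => BP (s j ^ 2) (zt j (pk n s k)) (wt j (pk n s k))) atTop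
      (𝓝 (BP (s j ^ 2) (-cc j) (sb j))) := by
    unfold BP
    exact (h0.div ((h1.const_mul _).const_sub 1) (h.den_sb j)).const_mul _
  have h3 := h2.sub_const (BP (s j ^ 2) (-cc j) (sb j))
  rw [sub_self] at h3
  exact h3

/-- Tannery -/
lemma tannery {G : ℕ → (Fin (n + 2) → ℂ) → ℂ} {p : ℕ → (Fin (n + 2) → ℂ)}
    (hp : ∀ k, nsq (p k) < 1) (hpf : ∀ j k, j ≠ k → Fr j (p k))
    (hf : ∀ k x, nsq x < 1 → Fr k x → ‖G k x‖ ≤ bd k)
    (ht : ∀ j, Tendsto (fun k => G j (p k)) atTop (𝓝 0)) :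
    Tendsto (fun k => ∑' j, if j = k then 0 else G j (p k)) atTop (𝓝 0) := by
  have h1 := tendsto_tsum_of_dominated_convergence (𝓕 := atTop)
    (f := fun k j => if j = k then 0 else G j (p k)) (g := fun _ : ℕ => (0 : ℂ)) (bound := bd)
    bd_sum.summable (fun j => ?_) (Eventually.of_forall fun k j => ?_)
  · rwa [tsum_zero] at h1
  · refine (ht j).congr' ?_
    filter_upwards [eventually_gt_atTop j] with k hk
    rw [if_neg (by omega)]
  · by_cases hjk : j = k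
    · rw [if_pos hjk, norm_zero]; exact bd_nonneg j
    · rw [if_neg hjk]
      exact hf j _ (hp k) (hpf j k hjk)

lemma tend_bd : Tendsto (fun k => bd k) atTop (𝓝 0) := bd_sum.summable.tendsto_atTop_zero

/-- the data tend to `0` along `p_k` -/
lemma Good.tend_FF (h : Good n η om s) (i : Fin 2) :
    Tendsto (fun k => ‖FF s i (pk n s k)‖) atTop (𝓝 0) := by
  rw [← tendsto_zero_iff_norm_tendsto_zero]
  by_cases hi : i = 0
  · have h1 := tannery (G := Ak (n := n) s) (p := pk n s) h.pk_ball (fun j k hjk => h.pk_far hjk)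
      (fun k x hx hf => h.Ak_far hx hf) h.tend_Ak
    have h2 : Tendsto (fun k => (((1 - √(1 - 2 * s k ^ 2)) : ℝ) : ℂ) + AA (s k ^ 2) (sb k)) atTop
        (𝓝 0) := by
      rw [tendsto_zero_iff_norm_tendsto_zero]
      have hlim : Tendsto (fun k => 2 * s k ^ 2 + bd k) atTop (𝓝 0) := by
        have := (h.tend_s2.const_mul 2).add tend_bd
        rwa [mul_zero, add_zero] at this
      refine squeeze_zero (fun k => norm_nonneg _) (fun k => ?_) hlim
      obtain ⟨w1, w2, w3, w4⟩ := w0_facts (h.t_pos k) (h.t_le k)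
      refine (norm_add_le _ _).trans ?_
      rw [Complex.norm_real, Real.norm_of_nonneg (by linarith)]
      have := h.AA_q k
      have := bd_nonneg k
      linarith
    have h3 := h2.sub h1
    rw [sub_zero] at h3
    refine h3.congr fun k => ?_
    unfold FF
    simp only [hi, if_true]
    obtain ⟨a1, _⟩ := split_off (fun k x hx hf => h.Ak_far hx hf) (h.pk_ball k)
      (fun j hj => h.pk_far hj)
    rw [a1]
    have h4 : Ak s k (pk n s k) = (√(1 - 2 * s k ^ 2) : ℝ) - AA (s k ^ 2) (sb k) := by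
      obtain ⟨w1, w2, w3, w4⟩ := w0_facts (h.t_pos k) (h.t_le k)
      unfold Ak
      congr 1
      unfold AA
      rw [wt_pk]
      have h5 : (1 : ℂ) - (√(1 - 2 * s k ^ 2) : ℝ) * (√(1 - 2 * s k ^ 2) : ℝ) =
          2 * ((s k ^ 2 : ℝ) : ℂ) := by
        rw [← Complex.ofReal_mul, ← sq, w2]; push_cast; ring
      have h6 : (2 : ℂ) * ((s k ^ 2 : ℝ) : ℂ) ≠ 0 := by
        have := h.t_pos k
        exact_mod_cast (by positivity : (2 : ℝ) * s k ^ 2 ≠ 0)
      rw [h5, mul_div_cancel_left₀ _ h6]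
    rw [h4]
    push_cast
    ring
  · have h1 := tannery (G := Bk (n := n) s) (p := pk n s) h.pk_ball (fun j k hjk => h.pk_far hjk)
      (fun k x hx hf => h.Bk_far hx hf) h.tend_Bk
    have h2 : Tendsto (fun k => -BP (s k ^ 2) (-cc k) (sb k)) atTop (𝓝 0) := by
      rw [tendsto_zero_iff_norm_tendsto_zero]
      refine squeeze_zero (fun k => norm_nonneg _) (fun k => ?_) tend_bd
      rw [norm_neg]
      have := h.BP_q k
      have := bd_nonneg k
      linarith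
    have h3 := h2.add h1
    rw [add_zero] at h3
    refine h3.congr fun k => ?_
    unfold FF
    simp only [hi, if_false]
    obtain ⟨a1, _⟩ := split_off (fun k x hx hf => h.Bk_far hx hf) (h.pk_ball k)
      (fun j hj => h.pk_far hj)
    rw [a1]
    congr 1
    unfold Bk BP
    rw [zt_pk, zero_div, mul_zero, zero_sub]

end Pool.Agent.U500.Pt
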