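import Mathlib
import Pool.Agent.U500.Pt.Low
import Pool.Agent.U500.Cone.Contr

set_option autoImplicit false

/-!
# There is no bounded solution
-/

open Metric Set Filter Topology
open scoped ContDiff InnerProductSpace

namespace Pool.Agent.U500.Pt

open Pool.Agent.U500.Inst
open Pool.Agent.U500.Cone (PP PP_nonneg PP_far PP_le PP_root isOpen_ball' main_est2)

variable {n : ℕ} {η : ℝ} {om : ℝ → ℝ} {s : ℕ → ℝ}

/-- points over the roots of unity -/
lemma Good.mem_root (h : Good n η om s) (k : ℕ) {a w : ℂ} (ha : a ^ (k + 1) = 1)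
    (hw : ‖w‖ ^ 2 < 1 - 11 / 10 * s k ^ 2) :
    rh n s (Phi n k (s k * a) w) < 0 := by
  have hs := h.pos k
  have hs1 := h.le1 k
  have hs2 := h.le2 k
  have hβ := bt_pos k
  have hβ1 := bt_lt k
  have hc0 := cc_pos k
  have hc1 := cc_le k
  have hna : ‖a‖ = 1 := by
    have h1 : ‖a‖ ^ (k + 1) = 1 := by rw [← norm_pow, ha, norm_one]
    exact (pow_eq_one_iff_of_nonneg (norm_nonneg a) (Nat.succ_ne_zero k)).1 h1
  have hnξ : ‖(s k : ℂ) * a‖ = s k := by
    rw [norm_mul, hna, mul_one, Complex.norm_real, Real.norm_of_nonneg hs.le]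
  have hu : gS n s (Phi n k (s k * a) w) = 0 := by
    have h1 : ‖Phi n k (s k * a) w 0 - cc k‖ < cc k / 10 := by
      rw [Phi_zero, add_sub_cancel_left, norm_mul, hnξ, Complex.norm_real,
        Real.norm_of_nonneg hβ.le]
      nlinarith
    rw [h.g_eq h1, GK_eq]
    have h2 : (Phi n k (s k * a) w 0 - cc k) / ((s k * bt k : ℝ) : ℂ) = a := by
      have h3 : ((s k * bt k : ℝ) : ℂ) ≠ 0 := by
        exact_mod_cast (mul_pos hs hβ).ne'
      rw [Phi_zero, div_eq_iff h3]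
      push_cast
      ring
    rw [h2, PP_root (Nat.succ_pos k) ha, mul_zero, zero_mul]
  unfold rh
  rw [nsq_chart, hu, add_zero, hnξ]
  have h1 : 0.999 ≤ ‖1 - (cc k : ℂ) * (s k * a)‖ := by
    have h2 := norm_sub_norm_le (1 : ℂ) ((cc k : ℂ) * (s k * a))
    rw [norm_one, norm_mul, hnξ, Complex.norm_real, Real.norm_of_nonneg hc0.le] at h2
    nlinarith
  set d := ‖1 - (cc k : ℂ) * (s k * a)‖ with hd
  have h2 : 0.998 ≤ d ^ 2 := by nlinarith
  have h3 : d ^ 2 * ‖w‖ ^ 2 < d ^ 2 * (1 - 11 / 10 * s k ^ 2) :=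
    mul_lt_mul_of_pos_left hw (by linarith)
  have h4 : d ^ 2 * ‖w‖ ^ 2 - (d ^ 2 - s k ^ 2) < 0 := by
    nlinarith [mul_nonneg (sub_nonneg.2 h2) (sq_nonneg (s k))]
  exact mul_neg_of_pos_of_neg hβ h4

/-- points over the disc of radius `2 s` -/
lemma Good.mem_disc (h : Good n η om s) (k : ℕ) {ξ w : ℂ} (hξ : ‖ξ‖ ≤ 2 * s k)
    (hw : ‖w‖ ^ 2 < 1 - 18 * s k ^ 2) :
    rh n s (Phi n k ξ w) < 0 := by
  have hs := h.pos k
  have hs1 := h.le1 k
  have hs2 := h.le2 k
  have hβ := bt_ge k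
  have hβ1 := bt_lt k
  have hc0 := cc_pos k
  have hc1 := cc_le k
  have hξ0 := norm_nonneg ξ
  have hu : gS n s (Phi n k ξ w) ≤ 13.6 * s k ^ 2 := by
    have h1 : ‖Phi n k ξ w 0 - cc k‖ < cc k / 10 := by
      rw [Phi_zero, add_sub_cancel_left, norm_mul, Complex.norm_real,
        Real.norm_of_nonneg (bt_pos k).le]
      nlinarith
    rw [h.g_eq h1, GK_eq]
    have h2 := PP_le (Nat.succ_pos k) ((Phi n k ξ w 0 - cc k) / ((s k * bt k : ℝ) : ℂ))
    have h3 : cut k (Phi n k ξ w 1) ≤ 1 := (cut k).le_one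
    have h4 : 0 ≤ cut k (Phi n k ξ w 1) := (cut k).nonneg
    calc _ ≤ 2 * s k ^ 2 * 6.8 * 1 := by gcongr
      _ = _ := by ring
  unfold rh
  rw [nsq_chart]
  have h1 : 0.9999 ≤ ‖1 - (cc k : ℂ) * ξ‖ := by
    have h2 := norm_sub_norm_le (1 : ℂ) ((cc k : ℂ) * ξ)
    rw [norm_one, norm_mul, Complex.norm_real, Real.norm_of_nonneg hc0.le] at h2
    nlinarith
  set d := ‖1 - (cc k : ℂ) * ξ‖ with hd
  set t := s k ^ 2 with ht
  have ht0 : 0 < t := h.t_pos k
  have ht1 : t ≤ 1 / 400 := h.t_le k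
  have h2 : 0.9998 ≤ d ^ 2 := by nlinarith
  have h3 : ‖ξ‖ ^ 2 ≤ 4 * t := by
    calc ‖ξ‖ ^ 2 ≤ (2 * s k) ^ 2 := by gcongr
      _ = 4 * t := by rw [ht]; ring
  have h4 : d ^ 2 * ‖w‖ ^ 2 ≤ d ^ 2 * (1 - 18 * t) := by gcongr
  have h5 : d ^ 2 * ‖w‖ ^ 2 - (d ^ 2 - ‖ξ‖ ^ 2) ≤ -(13.99 * t) := by nlinarith
  have h6 : bt k * (d ^ 2 * ‖w‖ ^ 2 - (d ^ 2 - ‖ξ‖ ^ 2)) ≤ bt k * -(13.99 * t) := by
    apply mul_le_mul_of_nonneg_left h5 (by linarith)
  have h7 : bt k * -(13.99 * t) ≤ -(13.9 * t) := by nlinarith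
  linarith

lemma diff_Phi_left (k : ℕ) (w : ℂ) : Differentiable ℂ (fun ξ => Phi n k ξ w) := by
  unfold Phi
  rw [differentiable_pi]
  intro i
  refine Fin.cases ?_ (fun i => ?_) i
  · change Differentiable ℂ (fun ξ : ℂ => (cc k : ℂ) + bt k * ξ)
    fun_prop
  · refine Fin.cases ?_ (fun i => ?_) i
    · change Differentiable ℂ (fun ξ : ℂ => (sb k : ℂ) * (1 - cc k * ξ) * w)
      fun_prop
    · exact differentiable_const _

lemma diff_Phi_right (k : ℕ) (ξ : ℂ) : Differentiable ℂ (fun w => Phi n k ξ w) := by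
  unfold Phi
  rw [differentiable_pi]
  intro i
  refine Fin.cases ?_ (fun i => ?_) i
  · exact differentiable_const _
  · refine Fin.cases ?_ (fun i => ?_) i
    · change Differentiable ℂ (fun w : ℂ => (sb k : ℂ) * (1 - cc k * ξ) * w)
      fun_prop
    · exact differentiable_const _

/-- no bounded solution -/
lemma Good.no_bounded (hg : Good n η om s) (h : Fin 2 → (Fin (n + 2) → ℂ) → ℂ)
    (hh : ∀ j, DifferentiableOn ℂ (h j) {x | rh n s x < 0})
    (heq : ∀ x, rh n s x < 0 → ∑ j, FF s j x * h j x = 1) (C : ℝ) :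
    ∃ j x, rh n s x < 0 ∧ C < ‖h j x‖ := by
  by_contra hcon
  push Not at hcon
  have hC0 : 0 ≤ C := (norm_nonneg _).trans (hcon 0 _
    (hg.mem_disc 0 (ξ := 0) (w := 0) (by rw [norm_zero]; have := hg.pos 0; positivity) (by
      rw [norm_zero]
      have := hg.le2 0
      have := hg.pos 0
      nlinarith)))
  -- the estimate for every `k`
  have key : ∀ k : ℕ, 16 * C * (1 / 2) ^ (k + 1) ≤ 1 →
      1 - C * (‖FF s 0 (pk n s k)‖ + ‖FF s 1 (pk n s k)‖) ≤
        (16 * C * (1 / 2) ^ (k + 1)) ^ (1 / 40 : ℝ) * (8 * C + 1) := by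
    intro k hk
    have hroot : ∀ j : ℕ, (Complex.exp (2 * Real.pi * Complex.I / ((k + 1 : ℕ) : ℂ)) ^ j) ^ (k + 1) =
        1 := by
      intro j
      rw [← pow_mul, mul_comm j (k + 1), pow_mul,
        (Complex.isPrimitiveRoot_exp (k + 1) (Nat.succ_ne_zero k)).pow_eq_one, one_pow]
    have ht := hg.t_pos k
    have ht1 := hg.t_le k
    have hmem1 : ∀ (j : ℕ) (w : ℂ), w ∈ ball (0 : ℂ) √(1 - 11 / 10 * s k ^ 2) →
        rh n s (Phi n k (s k *
          Complex.exp (2 * Real.pi * Complex.I / ((k + 1 : ℕ) : ℂ)) ^ j) w) < 0 := by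
      intro j w hw
      apply hg.mem_root k (hroot j)
      rw [mem_ball_zero_iff, Real.lt_sqrt (norm_nonneg _)] at hw
      exact hw
    refine main_est2 (h := fun i ξ w => h i (Phi n k ξ w)) (F := fun i w => FF s i (Phi n k 0 w))
      (hg.pos k) ht ht1 rfl (Nat.succ_pos k)
      (Complex.isPrimitiveRoot_exp (k + 1) (Nat.succ_ne_zero k)) ?_ ?_ ?_ ?_ ?_ ?_ ?_ hk
    · intro i w hw
      have h1 : nsq (Phi n k 0 w) < 1 := nsq_Phi0 k (mem_ball_zero_iff.1 hw)
      exact (((hg.diff_FF i).differentiableAt (isOpen_ball'.mem_nhds h1)).comp w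
        (diff_Phi_right k 0 w)).differentiableWithinAt
    · intro i w hw
      exact hg.FF_le i (nsq_Phi0 k (mem_ball_zero_iff.1 hw))
    · intro i j _ w hw
      exact (((hh i).differentiableAt (hg.isOpen.mem_nhds (hmem1 j w hw))).comp w
        (diff_Phi_right k _ w)).differentiableWithinAt
    · intro i j _ w hw
      exact hcon i _ (hmem1 j w hw)
    · intro i w hw
      apply DifferentiableOn.diffContOnCl
      intro z hz
      have hz' : z ∈ closedBall (0 : ℂ) (2 * s k) := closure_ball_subset_closedBall hz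
      have h1 : rh n s (Phi n k z w) < 0 := hg.mem_disc k (mem_closedBall_zero_iff.1 hz') hw
      exact (((hh i).differentiableAt (hg.isOpen.mem_nhds h1)).comp z
        (diff_Phi_left k w z)).differentiableWithinAt
    · intro i w hw z hz
      exact hcon i _ (hg.mem_disc k (mem_closedBall_zero_iff.1 hz) hw)
    · intro w hw
      apply heq
      apply hg.mem_disc k _ hw
      rw [norm_zero]
      have := hg.pos k
      positivity
  -- limits
  have t1 : Tendsto (fun k : ℕ => 16 * C * (1 / 2 : ℝ) ^ (k + 1)) atTop (𝓝 0) := by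
    have := ((tendsto_pow_atTop_nhds_zero_of_lt_one (r := (1 / 2 : ℝ)) (by norm_num)
      (by norm_num)).comp (tendsto_add_atTop_nat 1)).const_mul (16 * C)
    rwa [mul_zero] at this
  have t2 : Tendsto (fun k : ℕ => (16 * C * (1 / 2 : ℝ) ^ (k + 1)) ^ (1 / 40 : ℝ) * (8 * C + 1))
      atTop (𝓝 0) := by
    have h3 := ((Real.continuousAt_rpow_const (0 : ℝ) (1 / 40 : ℝ)
      (Or.inr (by norm_num))).tendsto.comp t1).mul_const (8 * C + 1)
    rw [Real.zero_rpow (by norm_num), zero_mul] at h3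
    exact h3
  have t3 : Tendsto (fun k : ℕ => 1 - C * (‖FF s 0 (pk n s k)‖ + ‖FF s 1 (pk n s k)‖)) atTop
      (𝓝 1) := by
    have h3 := ((((hg.tend_FF 0).add (hg.tend_FF 1)).const_mul C).const_sub 1)
    rwa [add_zero, mul_zero, sub_zero] at h3
  obtain ⟨k, a1, a2, a3⟩ := ((t1.eventually (eventually_le_nhds one_pos)).and
    ((t2.eventually (eventually_lt_nhds (by norm_num : (0 : ℝ) < 1 / 2))).and
      (t3.eventually (eventually_gt_nhds (by norm_num : (1 / 2 : ℝ) < 1))))).exists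
  have := key k a1
  linarith

end Pool.Agent.U500.Pt
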