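import Mathlib
import Pool.Agent.U500.Pt.Dat

set_option autoImplicit false

/-!
# The data are holomorphic near the points of the closed ball other than `q`
-/

open Metric Set Filter Topology
open scoped ContDiff InnerProductSpace

namespace Pool.Agent.U500.Pt

open Pool.Agent.U500.Inst
open Pool.Agent.U500.Cone (PP PP_nonneg PP_far PP_le le_PP AA w0_facts den_ge AA_le bd bd_nonneg
  bd_sum den_ne isOpen_ball' x01)

variable {n : ℕ} {η : ℝ} {om : ℝ → ℝ} {s : ℕ → ℝ}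

lemma den_far2 {t δ : ℝ} (ht : 0 < t) (ht1 : t ≤ 1 / 400) (htδ : 8 * t ≤ δ) {w : ℂ}
    (hw : ‖w‖ ≤ 2) (hf : δ ≤ ‖1 - w‖) : δ / 2 ≤ ‖1 - ((√(1 - 2 * t) : ℝ) : ℂ) * w‖ := by
  obtain ⟨h1, h2, h3, h4⟩ := w0_facts ht ht1
  have h5 : ‖1 - w‖ ≤ ‖1 - ((√(1 - 2 * t) : ℝ) : ℂ) * w‖ + (1 - √(1 - 2 * t)) * ‖w‖ := by
    have h6 : ‖((1 - √(1 - 2 * t) : ℝ) : ℂ) * w‖ = (1 - √(1 - 2 * t)) * ‖w‖ := by
      rw [norm_mul, Complex.norm_real, Real.norm_of_nonneg (by linarith)]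
    rw [← h6]
    have h7 : 1 - w = (1 - ((√(1 - 2 * t) : ℝ) : ℂ) * w) - ((1 - √(1 - 2 * t) : ℝ) : ℂ) * w := by
      push_cast; ring
    calc ‖1 - w‖ = ‖(1 - ((√(1 - 2 * t) : ℝ) : ℂ) * w) - ((1 - √(1 - 2 * t) : ℝ) : ℂ) * w‖ := by
          rw [← h7]
      _ ≤ _ := norm_sub_le _ _
  have h8 : (1 - √(1 - 2 * t)) * ‖w‖ ≤ 4 * t := by nlinarith [norm_nonneg w]
  linarith

/-- a series is holomorphic near `x` if its terms are and if it converges normally -/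
lemma series_ext {G : ℕ → (Fin (n + 2) → ℂ) → ℂ} {x : Fin (n + 2) → ℂ} {u : ℕ → ℝ}
    (hu : Summable u) (h1 : ∀ k, ∀ᶠ y in 𝓝 x, DifferentiableAt ℂ (G k) y)
    {K : ℕ} {O : Set (Fin (n + 2) → ℂ)} (hO : IsOpen O) (hxO : x ∈ O)
    (h2 : ∀ k, K ≤ k → DifferentiableOn ℂ (G k) O ∧ ∀ y ∈ O, ‖G k y‖ ≤ u k) :
    ∀ᶠ y in 𝓝 x, DifferentiableAt ℂ (fun y => ∑' k, G k y) y := by
  -- the terms with small index
  have h3 : ∀ k, ∃ M : ℝ, ∀ᶠ y in 𝓝 x, DifferentiableAt ℂ (G k) y ∧ ‖G k y‖ ≤ M := by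
    intro k
    refine ⟨‖G k x‖ + 1, (h1 k).and ?_⟩
    have hc : ContinuousAt (fun y => ‖G k y‖) x := (h1 k).self_of_nhds.continuousAt.norm
    exact (hc.eventually (eventually_lt_nhds (lt_add_one _))).mono fun y hy => le_of_lt hy
  choose M hM using h3
  have h4 : ∀ᶠ y in 𝓝 x, ∀ k ∈ Finset.range K, DifferentiableAt ℂ (G k) y ∧ ‖G k y‖ ≤ M k :=
    (Finset.range K).eventually_all.2 fun k _ => hM k
  obtain ⟨O', hO'1, hO'2, hxO'⟩ := _root_.mem_nhds_iff.1 h4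
  set O'' := O ∩ O' with hO''
  have hOo : IsOpen O'' := hO.inter hO'2
  have hxO'' : x ∈ O'' := ⟨hxO, hxO'⟩
  set v : ℕ → ℝ := fun k => if k < K then M k else u k with hv
  have hvs : Summable v := by
    refine (summable_nat_add_iff K).1 (((summable_nat_add_iff K).2 hu).congr fun k => ?_)
    rw [hv]
    simp
  have key := Pool.Agent.HP.nof_differentiableOn_tsum (f := G) (u := v) hvs hOo
    (fun k => by
      by_cases hk : k < K
      · intro y hy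
        exact (hO'1 hy.2 k (Finset.mem_range.2 hk)).1.differentiableWithinAt
      · exact (h2 k (not_lt.1 hk)).1.mono inter_subset_left)
    (fun k y hy => by
      rw [hv]
      by_cases hk : k < K
      · simp only [hk, if_true]
        exact (hO'1 hy.2 k (Finset.mem_range.2 hk)).2
      · simp only [hk, if_false]
        exact (h2 k (not_lt.1 hk)).2 y hy.1)
  filter_upwards [hOo.mem_nhds hxO''] with y hy
  exact key.differentiableAt (hOo.mem_nhds hy)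

lemma diffAt_zt {k : ℕ} {x : Fin (n + 2) → ℂ} (hc : 1 - (cc k : ℂ) * x 0 ≠ 0) :
    DifferentiableAt ℂ (zt (n := n) k) x := by
  have h1 : DifferentiableAt ℂ (fun x : Fin (n + 2) → ℂ => 1 - (cc k : ℂ) * x 0) x := by fun_prop
  unfold zt
  simp only [div_eq_mul_inv]
  exact DifferentiableAt.fun_mul (by fun_prop) (h1.inv hc)

lemma diffAt_wt {k : ℕ} {x : Fin (n + 2) → ℂ} (hc : 1 - (cc k : ℂ) * x 0 ≠ 0) :
    DifferentiableAt ℂ (wt (n := n) k) x := by
  have h1 : DifferentiableAt ℂ (fun x : Fin (n + 2) → ℂ => 1 - (cc k : ℂ) * x 0) x := by fun_prop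
  unfold wt
  simp only [div_eq_mul_inv]
  exact DifferentiableAt.fun_mul (by fun_prop) (h1.inv hc)

lemma diffAt_Ak {k : ℕ} {x : Fin (n + 2) → ℂ} (hc : 1 - (cc k : ℂ) * x 0 ≠ 0)
    (hd : 1 - ((√(1 - 2 * s k ^ 2) : ℝ) : ℂ) * wt k x ≠ 0) :
    DifferentiableAt ℂ (Ak (n := n) s k) x := by
  have h1 := diffAt_wt hc
  have h3 : DifferentiableAt ℂ (fun x : Fin (n + 2) → ℂ =>
      1 - ((√(1 - 2 * s k ^ 2) : ℝ) : ℂ) * wt k x) x := (h1.const_mul _).const_sub 1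
  unfold Ak AA
  simp only [div_eq_mul_inv]
  exact (DifferentiableAt.fun_mul (h1.const_mul _) (h3.inv hd)).sub_const _

lemma diffAt_Bk {k : ℕ} {x : Fin (n + 2) → ℂ} (hc : 1 - (cc k : ℂ) * x 0 ≠ 0)
    (hd : 1 - ((√(1 - 2 * s k ^ 2) : ℝ) : ℂ) * wt k x ≠ 0) :
    DifferentiableAt ℂ (Bk (n := n) s k) x := by
  have h1 := diffAt_wt hc
  have h0 := diffAt_zt hc
  have h3 : DifferentiableAt ℂ (fun x : Fin (n + 2) → ℂ =>
      1 - ((√(1 - 2 * s k ^ 2) : ℝ) : ℂ) * wt k x) x := (h1.const_mul _).const_sub 1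
  unfold Bk BP
  simp only [div_eq_mul_inv]
  exact ((DifferentiableAt.fun_mul h0 (h3.inv hd)).const_mul _).sub_const _

lemma wt_le {k : ℕ} {x : Fin (n + 2) → ℂ} (hx : nsq x ≤ 1) : ‖wt k x‖ ≤ 1 := by
  have h1 := loc_id (k := k) hx
  have h3 := bt_pos k
  have h4 : 0 < ‖1 - (cc k : ℂ) * x 0‖ := by linarith [(cden (k := k) hx).1]
  have h2 : 0 ≤ 1 - ‖x 0‖ ^ 2 - ‖x 1‖ ^ 2 := by
    rw [nsq_eq] at hx
    have := sq1_le x
    linarith
  have h5 : 0 ≤ bt k * (1 - ‖x 0‖ ^ 2 - ‖x 1‖ ^ 2) / ‖1 - (cc k : ℂ) * x 0‖ ^ 2 := by positivity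
  nlinarith [norm_nonneg (wt k x), sq_nonneg ‖zt k x‖]

/-- both denominators do not vanish near the points of the closed ball -/
lemma Good.ev_den (h : Good n η om s) (k : ℕ) {x : Fin (n + 2) → ℂ} (hx : nsq x ≤ 1) :
    ∀ᶠ y in 𝓝 x, 1 - (cc k : ℂ) * y 0 ≠ 0 ∧
      1 - ((√(1 - 2 * s k ^ 2) : ℝ) : ℂ) * wt k y ≠ 0 := by
  have hc := cne (k := k) hx
  have h1 : ContinuousAt (fun y : Fin (n + 2) → ℂ => 1 - (cc k : ℂ) * y 0) x :=
    continuousAt_const.sub (continuousAt_const.mul (continuous_apply 0).continuousAt)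
  have h2 : ContinuousAt (fun y : Fin (n + 2) → ℂ =>
      1 - ((√(1 - 2 * s k ^ 2) : ℝ) : ℂ) * wt k y) x :=
    ((diffAt_wt hc).const_mul _).const_sub 1 |>.continuousAt
  have h3 : 1 - ((√(1 - 2 * s k ^ 2) : ℝ) : ℂ) * wt k x ≠ 0 := by
    obtain ⟨w1, w2, w3, w4⟩ := w0_facts (h.t_pos k) (h.t_le k)
    have h4 := den_ge w1.le (wt k x)
    have h5 := wt_le (k := k) hx
    apply norm_pos_iff.1
    nlinarith [norm_nonneg (wt k x)]
  exact (h1.eventually_ne hc).and (h2.eventually_ne h3)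

/-- estimates near a point of the closed ball with `x 1 ≠ 1`, for large `k` -/
lemma near_large {x y : Fin (n + 2) → ℂ} (hx : nsq x ≤ 1) {D : ℝ} (hD : D = ‖1 - x 1‖) (hD0 : 0 < D)
    (hy : ‖y - x‖ < D / 100) {k : ℕ} (hk : cc k ≤ D / 100) :
    1 - (cc k : ℂ) * y 0 ≠ 0 ∧ ‖wt k y‖ ≤ 2 ∧ ‖zt k y‖ ≤ 2 ∧ dl k ≤ ‖1 - wt k y‖ := by
  have hc0 := cc_pos k
  have hc1 := cc_le k
  have hxn := norm_le_one hx
  have hx0 : ‖x 0‖ ≤ 1 := (norm_le_pi_norm x 0).trans hxn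
  have hx1 : ‖x 1‖ ≤ 1 := (norm_le_pi_norm x 1).trans hxn
  have hD2 : D ≤ 2 := by
    rw [hD]
    refine (norm_sub_le _ _).trans ?_
    rw [norm_one]
    linarith
  have hy0 : ‖y 0 - x 0‖ < D / 100 := (norm_le_pi_norm (y - x) 0).trans_lt hy
  have hy1 : ‖y 1 - x 1‖ < D / 100 := (norm_le_pi_norm (y - x) 1).trans_lt hy
  have hy0' : ‖y 0‖ ≤ 1.02 := by
    calc ‖y 0‖ = ‖(y 0 - x 0) + x 0‖ := by rw [sub_add_cancel]
      _ ≤ ‖y 0 - x 0‖ + ‖x 0‖ := norm_add_le _ _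
      _ ≤ 1.02 := by linarith
  have hy1' : ‖y 1‖ ≤ 1.02 := by
    calc ‖y 1‖ = ‖(y 1 - x 1) + x 1‖ := by rw [sub_add_cancel]
      _ ≤ ‖y 1 - x 1‖ + ‖x 1‖ := norm_add_le _ _
      _ ≤ 1.02 := by linarith
  have hcy : ‖(cc k : ℂ) * y 0‖ ≤ 0.0102 := by
    rw [norm_mul, Complex.norm_real, Real.norm_of_nonneg hc0.le]
    nlinarith [norm_nonneg (y 0)]
  have hcy' : ‖(cc k : ℂ) * y 0‖ ≤ 1.02 * (D / 100) := by
    rw [norm_mul, Complex.norm_real, Real.norm_of_nonneg hc0.le]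
    nlinarith [norm_nonneg (y 0)]
  have hden1 : 0.98 ≤ ‖1 - (cc k : ℂ) * y 0‖ := by
    have h5 := norm_sub_norm_le (1 : ℂ) ((cc k : ℂ) * y 0)
    rw [norm_one] at h5
    linarith
  have hden2 : ‖1 - (cc k : ℂ) * y 0‖ ≤ 1.02 := by
    have h5 := norm_sub_le (1 : ℂ) ((cc k : ℂ) * y 0)
    rw [norm_one] at h5
    linarith
  have hpos : 0 < ‖1 - (cc k : ℂ) * y 0‖ := by linarith
  have hne : 1 - (cc k : ℂ) * y 0 ≠ 0 := norm_pos_iff.1 hpos
  have hsb0 := sb_pos k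
  have hsb1 := sb_lt k
  refine ⟨hne, ?_, ?_, ?_⟩
  · unfold wt
    rw [norm_div, norm_mul, Complex.norm_real, Real.norm_of_nonneg hsb0.le, div_le_iff₀ hpos]
    nlinarith [norm_nonneg (y 1)]
  · unfold zt
    rw [norm_div, div_le_iff₀ hpos]
    have h6 : ‖y 0 - (cc k : ℂ)‖ ≤ ‖y 0‖ + ‖(cc k : ℂ)‖ := norm_sub_le _ _
    rw [Complex.norm_real, Real.norm_of_nonneg hc0.le] at h6
    linarith
  · have h1 : ‖1 - wt k y‖ * ‖1 - (cc k : ℂ) * y 0‖ = ‖1 - (cc k : ℂ) * y 0 - sb k * y 1‖ := by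
      rw [← norm_mul]
      unfold wt
      rw [sub_mul, one_mul, div_mul_cancel₀ _ hne]
    have h2 : 0.9 * D ≤ ‖1 - (cc k : ℂ) * y 0 - sb k * y 1‖ := by
      have h3 : 1 - x 1 = (1 - (cc k : ℂ) * y 0 - sb k * y 1) + (cc k : ℂ) * y 0 +
          (y 1 - x 1) - ((1 - sb k : ℝ) : ℂ) * y 1 := by push_cast; ring
      have h4 : ‖((1 - sb k : ℝ) : ℂ) * y 1‖ ≤ 1.02 * (D / 100) := by
        rw [norm_mul, Complex.norm_real, Real.norm_of_nonneg (by linarith)]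
        have h5 := one_sub_sb k
        have h6 : 1 - sb k ≤ D / 100 := by nlinarith
        nlinarith [norm_nonneg (y 1)]
      have h5 : D ≤ ‖1 - (cc k : ℂ) * y 0 - sb k * y 1‖ + ‖(cc k : ℂ) * y 0‖ +
          ‖y 1 - x 1‖ + ‖((1 - sb k : ℝ) : ℂ) * y 1‖ := by
        rw [hD]
        calc ‖1 - x 1‖ = ‖(1 - (cc k : ℂ) * y 0 - sb k * y 1) + (cc k : ℂ) * y 0 +
              (y 1 - x 1) - ((1 - sb k : ℝ) : ℂ) * y 1‖ := by rw [← h3]
          _ ≤ ‖(1 - (cc k : ℂ) * y 0 - sb k * y 1) + (cc k : ℂ) * y 0 +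
              (y 1 - x 1)‖ + ‖((1 - sb k : ℝ) : ℂ) * y 1‖ := norm_sub_le _ _
          _ ≤ _ := by
              gcongr
              exact norm_add₃_le
      linarith
    have h3 : dl k ≤ D / 100 := by
      unfold dl
      nlinarith
    by_contra hcon
    push Not at hcon
    have h4 : ‖1 - wt k y‖ * ‖1 - (cc k : ℂ) * y 0‖ ≤ (D / 100) * 1.02 := by
      have := norm_nonneg (1 - wt k y)
      apply mul_le_mul (by linarith) hden2 (by positivity) (by positivity)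
    linarith

lemma Good.t_dl3 (h : Good n η om s) (k : ℕ) : 8 * s k ^ 2 ≤ dl k := by
  have h1 := h.le4 k
  have h2 := h.pos k
  have h3 := dl_le k
  nlinarith

lemma exists_K {D : ℝ} (hD : 0 < D) : ∃ K, ∀ k, K ≤ k → cc k ≤ D / 100 := by
  have h1 : Tendsto cc atTop (𝓝 0) := by
    unfold cc
    exact (tendsto_pow_atTop_nhds_zero_of_lt_one (by norm_num) (by norm_num)).comp
      (tendsto_add_atTop_nat 1)
  exact eventually_atTop.1 (h1.eventually (eventually_le_nhds (by positivity)))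

/-- the data are holomorphic near the points of the closed ball other than `q` -/
lemma Good.FF_ext (h : Good n η om s) (j : Fin 2) {x : Fin (n + 2) → ℂ} (hx : nsq x ≤ 1)
    (hxq : x ≠ qq n) : ∀ᶠ y in 𝓝 x, DifferentiableAt ℂ (FF (n := n) s j) y := by
  -- `x 1 ≠ 1`
  have hx1 : x 1 ≠ 1 := by
    intro h1
    have h2 : ‖x 0‖ ^ 2 ≤ 0 := by
      have h3 := sq1_le x
      rw [nsq_eq] at hx
      rw [h1, norm_one] at h3
      linarith
    have h4 : x 0 = 0 := by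
      have h5 : ‖x 0‖ ^ 2 = 0 := le_antisymm h2 (sq_nonneg _)
      exact norm_eq_zero.1 ((pow_eq_zero_iff two_ne_zero).1 h5)
    rcases ne_qq hx hxq with h6 | h6
    · exact h6 h4
    · exact h6 h1
  set D : ℝ := ‖1 - x 1‖ with hD
  have hD0 : 0 < D := norm_pos_iff.2 (sub_ne_zero.2 (Ne.symm hx1))
  obtain ⟨K, hK⟩ := exists_K hD0
  have hO : IsOpen (ball x (D / 100)) := isOpen_ball
  have hxO : x ∈ ball x (D / 100) := mem_ball_self (by positivity)
  have hnear : ∀ k, K ≤ k → ∀ y ∈ ball x (D / 100),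
      1 - (cc k : ℂ) * y 0 ≠ 0 ∧ ‖wt k y‖ ≤ 2 ∧ ‖zt k y‖ ≤ 2 ∧ dl k ≤ ‖1 - wt k y‖ := by
    intro k hk y hy
    rw [mem_ball, dist_eq_norm] at hy
    exact near_large hx hD hD0 hy (hK k hk)
  have hbig : ∀ k, K ≤ k → ∀ y ∈ ball x (D / 100),
      dl k / 2 ≤ ‖1 - ((√(1 - 2 * s k ^ 2) : ℝ) : ℂ) * wt k y‖ := fun k hk y hy =>
    den_far2 (h.t_pos k) (h.t_le k) (h.t_dl3 k) (hnear k hk y hy).2.1 (hnear k hk y hy).2.2.2
  unfold FF
  by_cases hj : j = 0
  · simp only [hj, if_true]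
    refine (series_ext (G := Ak (n := n) s) (u := fun k => 2 * bd k) (K := K)
      (bd_sum.summable.mul_left 2) (fun k => (h.ev_den k hx).mono fun y hy =>
        diffAt_Ak hy.1 hy.2) hO hxO fun k hk => ⟨fun y hy => ?_, fun y hy => ?_⟩).mono
      fun y hy => hy.const_sub 1
    · have h1 := hbig k hk y hy
      have h2 := dl_pos k
      exact (diffAt_Ak (hnear k hk y hy).1
        (norm_pos_iff.1 (by linarith))).differentiableWithinAt
    · have h1 := hbig k hk y hy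
      have h2 := dl_pos k
      have h3 := h.le3 k
      have h4 := h.AA_q k
      have h5 := bd_nonneg k
      have h6 : ‖AA (s k ^ 2) (wt k y)‖ ≤ bd k := by
        unfold AA
        rw [norm_div, norm_mul, norm_mul, Complex.norm_real, Real.norm_of_nonneg (h.t_pos k).le,
          Complex.norm_ofNat, div_le_iff₀ (by linarith)]
        have h7 := (hnear k hk y hy).2.1
        have h8 := h.pos k
        have h9 := h.le2 k
        have h10 : 2 * s k ^ 2 * ‖wt k y‖ ≤ 2 * s k ^ 2 * 2 := by gcongr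
        have h11 : bd k * (dl k / 2) ≤ bd k * ‖1 - ((√(1 - 2 * s k ^ 2) : ℝ) : ℂ) * wt k y‖ := by
          gcongr
        nlinarith
      unfold Ak
      refine (norm_sub_le _ _).trans ?_
      linarith
  · simp only [hj, if_false]
    refine series_ext (G := Bk (n := n) s) (u := fun k => 2 * bd k) (K := K)
      (bd_sum.summable.mul_left 2) (fun k => (h.ev_den k hx).mono fun y hy =>
        diffAt_Bk hy.1 hy.2) hO hxO fun k hk => ⟨fun y hy => ?_, fun y hy => ?_⟩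
    · have h1 := hbig k hk y hy
      have h2 := dl_pos k
      exact (diffAt_Bk (hnear k hk y hy).1
        (norm_pos_iff.1 (by linarith))).differentiableWithinAt
    · have h1 := hbig k hk y hy
      have h2 := dl_pos k
      have h3 := h.le3 k
      have h4 := h.BP_q k
      have h5 := bd_nonneg k
      have h6 : ‖BP (s k ^ 2) (zt k y) (wt k y)‖ ≤ bd k := by
        unfold BP
        rw [norm_mul, norm_div, Complex.norm_real, Real.norm_of_nonneg (Real.sqrt_nonneg _),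
          ← mul_div_assoc, div_le_iff₀ (by linarith)]
        have h7 := (hnear k hk y hy).2.2.1
        have h8 := h.pos k
        have h9 := h.sqrt_le k
        have h10 : √(2 * s k ^ 2) * ‖zt k y‖ ≤ (3 / 2 * s k) * 2 := by gcongr
        have h11 : bd k * (dl k / 2) ≤ bd k * ‖1 - ((√(1 - 2 * s k ^ 2) : ℝ) : ℂ) * wt k y‖ := by
          gcongr
        nlinarith
      unfold Bk
      refine (norm_sub_le _ _).trans ?_
      linarith

end Pool.Agent.U500.Pt
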